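import Pool.Agent.Run7.h380.IN.Prob

/-!
# The union bound (helper380)
-/

set_option autoImplicit false

namespace Run7.h380.IN

open Finset
open Pool.Agent.W994.AR
open Pool.Agent.N455.CS
open scoped Classical

variable {B : Type}

theorem noWit_same {G : Subgroup (Equiv.Perm B)} {p q : ℕ} {F : Type} {v v' : Fin q × F → B}
    (h : Same G v v') {L : Finset (Fin q)} (hN : NoWit G p v L) : NoWit G p v' L := by
  intro a b ha hb d hd
  have h1 := hN a b ha hb d hd
  have h2 : Same G (v ∘ Equiv.swap a b ∘ d) (v' ∘ Equiv.swap a b ∘ d) := h.comp _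
  have h3 : Same G (v ∘ d) (v' ∘ d) := h.comp _
  exact (h2.symm.trans h1).trans h3

theorem sum_filter_zero {α : Type} [Fintype α] {P : α → Prop} {_ : DecidablePred P}
    (h : ∀ R, ¬ P R) (μ : α → ℝ) : ∑ R ∈ (Finset.univ : Finset α).filter P, μ R = 0 :=
  Finset.sum_eq_zero (fun R hR => absurd (Finset.mem_filter.1 hR).2 (h R))

theorem sum_filter_le {α : Type} [Fintype α] {P Q : α → Prop} {_ : DecidablePred P}
    {_ : DecidablePred Q}
    (h : ∀ R, P R → Q R) {μ : α → ℝ} (hμ0 : ∀ R, 0 ≤ μ R) :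
    ∑ R ∈ (Finset.univ : Finset α).filter P, μ R ≤
      ∑ R ∈ (Finset.univ : Finset α).filter Q, μ R := by
  refine Finset.sum_le_sum_of_subset_of_nonneg ?_ fun R _ _ => hμ0 R
  intro R hR
  rw [Finset.mem_filter] at hR ⊢
  exact ⟨hR.1, h R hR.2⟩

section

variable {G : Subgroup (Equiv.Perm B)} {t : ℕ} (k : Fin t → ℕ) (j : Fin t)
  [Fintype (IOmega G k)] {p r h q d : ℕ} {F : Finset B} {x0 x1 : F}
  (hβ : ¬ Same G ((fun x : F => (x : B)) ∘ Equiv.swap x0 x1) (fun x : F => (x : B)))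
  {θ : Fin q × F → B} (hθi : Function.Injective θ)
  (hθ2 : ∀ l, Same G (fun x : F => θ (l, x)) (fun x : F => (x : B)))
  {ε : ℝ} (hε : 0 ≤ ε) (hε1 : ε ≤ 1) {μ : Finset (IOmega G k) → ℝ} (hμ0 : ∀ R, 0 ≤ μ R)
  (hμ : FE ε μ)

include hβ hθi hθ2 hε hε1 hμ0 hμ

theorem not_good_bound [Fintype (Lam G r)] [Finite (Orb G (Fin r ⊕ (Fin q × F)))]
    (hθE : ∀ (s : Lam G r) (i : Fin r) y, θ y ≠ s.1.out i)
    (hd1 : 1 ≤ d) (hd : Fintype.card (Lam G r) ≤ d) (hk : r + h * ((p + 3) * F.card) ≤ k j)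
    (hkq : k j ≤ r + q * F.card) (hq : (p + 3) * h ≤ q) :
    ∑ R ∈ (Finset.univ : Finset (Finset (IOmega G k))).filter
        (fun R : Finset (IOmega G k) => ¬ Good G p r h θ (irel G k (R : Set (IOmega G k)) j)),
        μ R ≤
      ((q : ℝ) ^ (k j) + (q : ℝ) ^ h + Nat.card (Orb G (Fin r ⊕ (Fin q × F)))) *
        ((1 - ε ^ d) ^ (2 ^ h) * ∑ R, μ R) := by
  have := Fintype.ofFinite (Orb G (Fin r ⊕ (Fin q × F)))
  let I : Type := (Fin (k j) ↪ Fin q) ⊕ ((Fin h ↪ Fin q) ⊕ Orb G (Fin r ⊕ (Fin q × F)))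
  let Ev : I → Finset (IOmega G k) → Prop := fun i R =>
    match i with
    | Sum.inl δ => ¬ ∃ w : Fin (k j) → Fin (k j) × F,
          Function.Injective w ∧
          (fun i => θ (δ (w i).1, (w i).2)) ∈ irel G k (R : Set (IOmega G k)) j
    | Sum.inr (Sum.inl δ) => ¬ ∃ w : Fin (k j) → Fin r ⊕ (Fin q × F),
          (∀ i, ∃ l, w l = Sum.inl i) ∧ (∀ j x, ∃ l, w l = Sum.inr (δ j, x)) ∧
          ∀ s : Lam G r, tgt θ s ∘ w ∈ irel G k (R : Set (IOmega G k)) j
    | Sum.inr (Sum.inr o) => (Function.Injective o.out ∧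
        ¬ ∃ L : Finset (Fin q), L.card ≤ (p + 2) * h ∧ NoWit G p (fun y => o.out (Sum.inr y)) L) ∧
        ¬ ∃ w : Fin (k j) → Fin r ⊕ (Fin q × F),
          (∀ s : Lam G r, ¬ Same G s.1.out (fun i => o.out (Sum.inl i)) →
            tgt θ s ∘ w ∈ irel G k (R : Set (IOmega G k)) j) ∧
          o.out ∘ w ∉ irel G k (R : Set (IOmega G k)) j
  set bd : ℝ := (1 - ε ^ d) ^ (2 ^ h) * ∑ R, μ R with hbd
  have hS0 : 0 ≤ ∑ R, μ R := Finset.sum_nonneg fun R _ => hμ0 R
  have hbd0 : 0 ≤ bd := by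
    have : ε ^ d ≤ 1 := pow_le_one₀ hε hε1
    exact mul_nonneg (pow_nonneg (by linarith) _) hS0
  have hev : ∀ i : I, ∑ R ∈ (Finset.univ : Finset (Finset (IOmega G k))).filter (Ev i), μ R ≤ bd := by
    rintro (δ | δ | o)
    · have h1 := event1 (h := h) k j hβ hθi hθ2 hε hε1 hμ0 hμ hd1
        (by nlinarith [Nat.zero_le (h * ((p + 2) * F.card))]) δ δ.injective
      exact le_trans (sum_filter_le (fun R hR => hR) hμ0) h1
    · have h1 := event3 k j hβ hθi hθ2 hε hε1 hμ0 hμ hθE hd hk hkq δ δ.injective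
      exact le_trans (sum_filter_le (fun R hR => hR) hμ0) h1
    · by_cases ho : Function.Injective o.out ∧
        ¬ ∃ L : Finset (Fin q), L.card ≤ (p + 2) * h ∧ NoWit G p (fun y => o.out (Sum.inr y)) L
      · have h1 := event2 k j hβ hθi hθ2 hε hε1 hμ0 hμ hθE hd hk hkq hq o.out ho.1 ho.2
        exact le_trans (sum_filter_le (fun R hR => hR.2) hμ0) h1
      · exact (le_of_eq (sum_filter_zero (fun R hR => ho hR.1) μ)).trans hbd0
  have hsub : (Finset.univ : Finset (Finset (IOmega G k))).filter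
        (fun R : Finset (IOmega G k) => ¬ Good G p r h θ (irel G k (R : Set (IOmega G k)) j)) ⊆
      (Finset.univ : Finset I).biUnion (fun i =>
        (Finset.univ : Finset (Finset (IOmega G k))).filter (Ev i)) := by
    intro R hR
    rw [Finset.mem_filter] at hR
    by_contra hcon
    apply hR.2
    have hno : ∀ i : I, ¬ Ev i R := by
      intro i hi
      exact hcon (Finset.mem_biUnion.2 ⟨i, Finset.mem_univ _,
        Finset.mem_filter.2 ⟨Finset.mem_univ _, hi⟩⟩)
    refine ⟨?_, ?_, ?_⟩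
    · intro δ hδ
      exact not_not.1 (hno (Sum.inl ⟨δ, hδ⟩))
    · intro δ hδ
      exact not_not.1 (hno (Sum.inr (Sum.inl ⟨δ, hδ⟩)))
    · intro v hv
      by_cases hL : ∃ L : Finset (Fin q), L.card ≤ (p + 2) * h ∧
          NoWit G p (fun y => v (Sum.inr y)) L
      · exact Or.inl hL
      · right
        set o : Orb G (Fin r ⊕ (Fin q × F)) := Quotient.mk (orb G (Fin r ⊕ (Fin q × F))) v with ho
        have h1 : Same G o.out v := Quotient.exact (o.out_eq.trans ho)
        have h2 : Function.Injective o.out := same_inj h1.symm hv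
        have h3 : ¬ ∃ L : Finset (Fin q), L.card ≤ (p + 2) * h ∧
            NoWit G p (fun y => o.out (Sum.inr y)) L := by
          rintro ⟨L, hL1, hL2⟩
          exact hL ⟨L, hL1, noWit_same (h1.comp Sum.inr) hL2⟩
        have h4 : ¬ ((Function.Injective o.out ∧
          ¬ ∃ L : Finset (Fin q), L.card ≤ (p + 2) * h ∧ NoWit G p (fun y => o.out (Sum.inr y)) L) ∧
          ¬ ∃ w : Fin (k j) → Fin r ⊕ (Fin q × F),
            (∀ s : Lam G r, ¬ Same G s.1.out (fun i => o.out (Sum.inl i)) →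
              tgt θ s ∘ w ∈ irel G k (R : Set (IOmega G k)) j) ∧
            o.out ∘ w ∉ irel G k (R : Set (IOmega G k)) j) := hno (Sum.inr (Sum.inr o))
        have h5 := not_not.1 (fun h6 => h4 ⟨⟨h2, h3⟩, h6⟩)
        obtain ⟨w, hw1, hw2⟩ := h5
        refine ⟨w, fun s hs => hw1 s (fun h6 => hs (h6.trans (h1.comp Sum.inl))), fun h6 => hw2 ?_⟩
        exact (h1.comp w).symm.mem (irel_invar G k _ j) h6
  refine (Finset.sum_le_sum_of_subset_of_nonneg hsub fun R _ _ => hμ0 R).trans ?_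
  refine (sum_biUnion_le' _ _ μ hμ0).trans ?_
  refine (Finset.sum_le_sum fun i _ => hev i).trans ?_
  rw [Finset.sum_const, nsmul_eq_mul]
  refine mul_le_mul_of_nonneg_right ?_ hbd0
  rw [Finset.card_univ]
  have hc1 : Fintype.card (Fin (k j) ↪ Fin q) ≤ q ^ (k j) := by
    rw [Fintype.card_embedding_eq, Fintype.card_fin, Fintype.card_fin]
    exact Nat.descFactorial_le_pow _ _
  have hc2 : Fintype.card (Fin h ↪ Fin q) ≤ q ^ h := by
    rw [Fintype.card_embedding_eq, Fintype.card_fin, Fintype.card_fin]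
    exact Nat.descFactorial_le_pow _ _
  have hc : Fintype.card I ≤ q ^ (k j) + q ^ h + Nat.card (Orb G (Fin r ⊕ (Fin q × F))) := by
    have h1 : Fintype.card I = Fintype.card (Fin (k j) ↪ Fin q) + (Fintype.card (Fin h ↪ Fin q) +
        Fintype.card (Orb G (Fin r ⊕ (Fin q × F)))) := by
      rw [← Fintype.card_sum, ← Fintype.card_sum]
    rw [h1, Nat.card_eq_fintype_card]
    omega
  exact_mod_cast hc

end

end Run7.h380.IN
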