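import Pool.Agent.Run7.h380.IN.Main
import Pool.Agent.Run7.h380.SY.Main

/-!
# The number of exceptional injective relations (helper380)
-/

set_option autoImplicit false

namespace Run7.h380.IN

open Finset
open Pool.Agent.W994.AR
open Pool.Agent.N455.CS
open scoped Classical

variable {B : Type}

/-- The invariant relations of arity `k` all of whose tuples are injective. -/
abbrev InjRel (G : Subgroup (Equiv.Perm B)) (k : ℕ) : Type :=
  {R : Set (Fin k → B) // Invar G R ∧ ∀ u ∈ R, Function.Injective u}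

/-- injective relations are sets of orbits -/
noncomputable def injEquiv (G : Subgroup (Equiv.Perm B)) (k : ℕ) :
    InjRel G k ≃ Set (IOmega G (t := 1) (fun _ => k)) where
  toFun R := {x | ∃ (v : Fin k → B) (h : Function.Injective v), v ∈ R.1 ∧
    Quotient.mk (iorb G k) ⟨v, h⟩ = x.2}
  invFun Θ := ⟨irel G (t := 1) (fun _ => k) Θ 0, irel_invar G _ Θ 0, irel_inj G _ Θ 0⟩
  left_inv R := by
    apply Subtype.ext
    ext v
    constructor
    · rintro ⟨hv, u, hu, huR, h⟩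
      have h1 : Same G u v := Quotient.exact h
      exact h1.mem R.2.1 huR
    · intro hv
      exact ⟨R.2.2 v hv, v, R.2.2 v hv, hv, rfl⟩
  right_inv Θ := by
    ext ⟨j, x⟩
    have hj : j = 0 := Subsingleton.elim _ _
    subst hj
    obtain ⟨⟨v, hv⟩, rfl⟩ := Quotient.exists_rep x
    constructor
    · rintro ⟨u, hu, ⟨hu', huΘ⟩, h⟩
      have h3 : (⟨0, Quotient.mk (iorb G k) ⟨u, hu⟩⟩ : IOmega G (t := 1) (fun _ => k)) =
          ⟨0, Quotient.mk (iorb G k) ⟨v, hv⟩⟩ := by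
        congr 1
      exact h3 ▸ huΘ
    · intro hvΘ
      exact ⟨v, hv, ⟨hv, hvΘ⟩, rfl⟩

theorem count_bound {σ : Type} [Infinite B] [Finite σ] {arB : σ → ℕ} (𝔹 : Str σ arB B)
    (h𝔹 : Homogeneous 𝔹) (horb : ∀ b : B, {x | ∃ g ∈ autGroup 𝔹, g b = x}.Infinite) (r : ℕ) :
    ∃ N : ℕ, 0 < N ∧ ∀ k : ℕ, N ≤ k →
        Finite (InjRel (autGroup 𝔹) k) ∧
        (Nat.card {R : InjRel (autGroup 𝔹) k //
          ¬ InjDichotomy (autGroup 𝔹) r (t := 1) (k := fun _ => k) (fun _ => R.1)} : ℝ) ≤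
          2 ^ (N * k ^ N) * (1 - (2⁻¹ : ℝ) ^ N) ^ (2 ^ (k / N)) *
            Nat.card (InjRel (autGroup 𝔹) k) := by
  obtain ⟨N, hN, h⟩ := law_bound 𝔹 h𝔹 horb r
  refine ⟨N, hN, ?_⟩
  intro k hk
  have hfin : ∀ k, Finite (Orb (autGroup 𝔹) (Fin k)) := fun k => hom_finite h𝔹 (Fin k)
  have hfc : Finite (IOmega (autGroup 𝔹) (t := 1) (fun _ => k)) := finite_iomega hfin _
  have hfs : Finite (Set (IOmega (autGroup 𝔹) (t := 1) (fun _ => k))) := inferInstance
  have hfR : Finite (InjRel (autGroup 𝔹) k) := Finite.of_equiv _ (injEquiv (autGroup 𝔹) k).symm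
  refine ⟨hfR, ?_⟩
  set c : ℝ := (Nat.card (Set (IOmega (autGroup 𝔹) (t := 1) (fun _ => k))) : ℝ)⁻¹ with hc
  have hpos : (0 : ℝ) < Nat.card (Set (IOmega (autGroup 𝔹) (t := 1) (fun _ => k))) := by
    exact_mod_cast Nat.card_pos
  have hc0 : 0 < c := inv_pos.2 hpos
  have hlaw : IsLaw (fun _ : Set (IOmega (autGroup 𝔹) (t := 1) (fun _ => k)) => c) := by
    have := Fintype.ofFinite (IOmega (autGroup 𝔹) (t := 1) (fun _ => k))
    refine isLaw_of_sum (fun _ => hc0.le) ?_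
    rw [Finset.sum_const, Finset.card_univ, nsmul_eq_mul]
    have h3 : (Fintype.card (Finset (IOmega (autGroup 𝔹) (t := 1) (fun _ => k))) : ℝ) =
        Nat.card (Set (IOmega (autGroup 𝔹) (t := 1) (fun _ => k))) := by
      rw [Nat.card_eq_fintype_card, Fintype.card_set, Fintype.card_finset]
    rw [h3, hc, mul_inv_cancel₀ hpos.ne']
  have hFE : FiniteEnergy (2⁻¹ : ℝ)
      (fun _ : Set (IOmega (autGroup 𝔹) (t := 1) (fun _ => k)) => c) := by
    intro Θ o
    constructor <;> · show (2⁻¹ : ℝ) * (c + c) ≤ c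
                      linarith
  have h3 := h 1 (fun _ => k) k k hk (fun _ => ⟨le_rfl, le_rfl⟩) (2⁻¹) (by norm_num) (by norm_num)
    _ hlaw hFE
  rw [hc, Run7.h380.SY.prob_uniform, ← hc, Nat.cast_one, one_mul] at h3
  have h4 : Nat.card {R : InjRel (autGroup 𝔹) k //
      ¬ InjDichotomy (autGroup 𝔹) r (t := 1) (k := fun _ => k) (fun _ => R.1)} =
      Nat.card {Θ : Set (IOmega (autGroup 𝔹) (t := 1) (fun _ => k)) //
        ¬ InjDichotomy (autGroup 𝔹) r (irel (autGroup 𝔹) (t := 1) (fun _ => k) Θ)} := by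
    refine Nat.card_congr (Equiv.subtypeEquiv (injEquiv (autGroup 𝔹) k) ?_)
    intro R
    have h5 : (fun _ : Fin 1 => R.1) =
        irel (autGroup 𝔹) (t := 1) (fun _ => k) (injEquiv (autGroup 𝔹) k R) := by
      funext j
      have hj : j = 0 := Subsingleton.elim _ _
      subst hj
      have := congrArg Subtype.val ((injEquiv (autGroup 𝔹) k).left_inv R)
      exact this.symm
    rw [h5]
  have h6 : Nat.card (InjRel (autGroup 𝔹) k) =
      Nat.card (Set (IOmega (autGroup 𝔹) (t := 1) (fun _ => k))) :=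
    Nat.card_congr (injEquiv (autGroup 𝔹) k)
  rw [h4, h6]
  calc (Nat.card {Θ : Set (IOmega (autGroup 𝔹) (t := 1) (fun _ => k)) //
        ¬ InjDichotomy (autGroup 𝔹) r (irel (autGroup 𝔹) (t := 1) (fun _ => k) Θ)} : ℝ)
      = Nat.card {Θ : Set (IOmega (autGroup 𝔹) (t := 1) (fun _ => k)) //
        ¬ InjDichotomy (autGroup 𝔹) r (irel (autGroup 𝔹) (t := 1) (fun _ => k) Θ)} * c *
          Nat.card (Set (IOmega (autGroup 𝔹) (t := 1) (fun _ => k))) := by
        rw [mul_assoc, hc, inv_mul_cancel₀ hpos.ne', mul_one]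
    _ ≤ _ := mul_le_mul_of_nonneg_right h3 hpos.le

end Run7.h380.IN
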