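import Pool.Agent.Run7.h380.IN.Theta

/-!
# Good injective relations pp-define all the injective relations (helper380)
-/

set_option autoImplicit false

namespace Run7.h380.IN

open Finset
open Pool.Agent.W994.AR
open scoped Classical

variable {B : Type}

/-- the injective types of length `r` -/
abbrev Lam (G : Subgroup (Equiv.Perm B)) (r : ℕ) : Type :=
  {o : Orb G (Fin r) // Function.Injective o.out}

/-- the target tuples -/
noncomputable def tgt {G : Subgroup (Equiv.Perm B)} {r q : ℕ} {F : Type} (θ : Fin q × F → B)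
    (s : Lam G r) : Fin r ⊕ (Fin q × F) → B := Sum.elim s.1.out θ

/-- the properties of a typical injective relation that are used -/
structure Good (G : Subgroup (Equiv.Perm B)) (p r h : ℕ) {q : ℕ} {F : Type} (θ : Fin q × F → B)
    {k : ℕ} (R : Set (Fin k → B)) : Prop where
  e1 : ∀ δ : Fin k → Fin q, Function.Injective δ → ∃ w : Fin k → Fin k × F,
    Function.Injective w ∧ (fun i => θ (δ (w i).1, (w i).2)) ∈ R
  e3 : ∀ δ : Fin h → Fin q, Function.Injective δ → ∃ w : Fin k → Fin r ⊕ (Fin q × F),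
    (∀ i, ∃ l, w l = Sum.inl i) ∧ (∀ j x, ∃ l, w l = Sum.inr (δ j, x)) ∧
      ∀ s : Lam G r, tgt θ s ∘ w ∈ R
  e2 : ∀ v : Fin r ⊕ (Fin q × F) → B, Function.Injective v →
    (∃ L : Finset (Fin q), L.card ≤ (p + 2) * h ∧ NoWit G p (fun y => v (Sum.inr y)) L) ∨
    ∃ w : Fin k → Fin r ⊕ (Fin q × F),
      (∀ s : Lam G r, ¬ Same G s.1.out (fun i => v (Sum.inl i)) → tgt θ s ∘ w ∈ R) ∧ v ∘ w ∉ R

theorem pp_of_good {G : Subgroup (Equiv.Perm B)} {p r h q K k0 : ℕ} (hloc : Local G p)
    (hk0 : ∀ {ι : Type} [Finite ι] {ar : ι → ℕ} (𝔸 : Str ι ar B), (∀ l, Invar G (𝔸 l)) →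
      ∀ (n : ℕ) (v : Fin n → B), k0 ≤ n → Function.Injective v → SymT G v →
        (∀ l, (𝔸 l).Nonempty → ∃ x : Fin (ar l) → Fin n, Function.Injective x ∧ v ∘ x ∈ 𝔸 l) →
        Triv G 𝔸)
    {F : Finset B} (hF : ∀ a ≤ r, ∀ γ : Fin a → B, ∃ x : Fin a → F, Same G (fun i => (x i : B)) γ)
    (hFne : F.Nonempty) {θ : Fin q × F → B}
    (hθ2 : ∀ l, Same G (fun x : F => θ (l, x)) (fun x : F => (x : B)))
    (hk0K : k0 ≤ K) (hK0 : 1 ≤ K) (hh : 2 ≤ h) (hq : K + (p + 2) * h ≤ q)
    {ι : Type} [Finite ι] {ar : ι → ℕ} {𝔸 : Str ι ar B} (hinv : ∀ l, Invar G (𝔸 l))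
    (hinj : ∀ l, ∀ u ∈ 𝔸 l, Function.Injective u)
    (hgood : ∀ l, ar l ≤ r ∨ (ar l ≤ K ∧ ∃ h', Good G p r h' θ (𝔸 l)))
    {l0 : ι} (hl0 : Good G p r h θ (𝔸 l0)) (hT : ¬ Triv G 𝔸)
    (S : Set (Fin r → B)) (hS : Invar G S) (hSinj : ∀ u ∈ S, Function.Injective u) : PP 𝔸 S := by
  let V : Type := Fin r ⊕ (Fin q × F)
  let W : Set (Σ l, (Fin (ar l) → V)) := {x | ∀ s : Lam G r, s.1.out ∈ S → tgt θ s ∘ x.2 ∈ 𝔸 x.1}
  have hWfin : W.Finite := Set.toFinite _
  let Φ : Set (V → B) := {v | ∀ x ∈ W, v ∈ {v : V → B | v ∘ x.2 ∈ 𝔸 x.1}}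
  have hΦ : PP 𝔸 Φ := PP.iInter W hWfin (fun x => {v : V → B | v ∘ x.2 ∈ 𝔸 x.1})
    (fun x _ => PP.rel x.1 x.2)
  have hmain : S = {u : Fin r → B | ∃ z : Fin q × F → B, Sum.elim u z ∈ Φ} := by
    ext u
    constructor
    · intro hu
      set o : Orb G (Fin r) := Quotient.mk (orb G (Fin r)) u with ho
      have h1 : Same G o.out u := Quotient.exact (o.out_eq.trans ho)
      let s : Lam G r := ⟨o, same_inj h1.symm (hSinj u hu)⟩
      have hsS : s.1.out ∈ S := h1.symm.mem hS hu
      obtain ⟨g, hg, hgu⟩ := h1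
      refine ⟨fun y => g (θ y), ?_⟩
      intro x hx
      have h2 := hx s hsS
      have h3 : Same G (tgt θ s ∘ x.2) (Sum.elim u (fun y => g (θ y)) ∘ x.2) := by
        refine ⟨g, hg, fun i => ?_⟩
        simp only [Function.comp]
        rcases x.2 i with a | y
        · exact hgu a
        · rfl
      exact h3.mem (hinv x.1) h2
    · rintro ⟨z, hz⟩
      set v : V → B := Sum.elim u z with hv
      have hqh : h ≤ q := by nlinarith
      have hq1 : 1 < q := by omega
      -- injectivity
      have hvinj : Function.Injective v := by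
        intro x y hxy
        by_contra hne
        -- blocks containing x and y
        have hblk : ∃ δ : Fin h → Fin q, Function.Injective δ ∧
            (∀ y', x = Sum.inr y' → ∃ j, δ j = y'.1) ∧ (∀ y', y = Sum.inr y' → ∃ j, δ j = y'.1) := by
          let bx : Fin q := Sum.elim (fun _ => ⟨0, by omega⟩) (fun y' => y'.1) x
          let by' : Fin q := Sum.elim (fun _ => ⟨0, by omega⟩) (fun y' => y'.1) y
          obtain ⟨w, hw, hw'⟩ := exists_word (U := Fin q) (k := h) {bx, by'}
            (Finset.card_le_two.trans hh) (by simpa using hqh)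
          refine ⟨w, hw, ?_, ?_⟩
          · rintro y' rfl
            exact hw' _ (by simp [bx])
          · rintro y' rfl
            exact hw' _ (by simp [by'])
        obtain ⟨δ, hδ, hδx, hδy⟩ := hblk
        obtain ⟨w, hw1, hw2, hw3⟩ := hl0.e3 δ hδ
        have hcov : ∀ x : V, (∀ y', x = Sum.inr y' → ∃ j, δ j = y'.1) → ∃ l, w l = x := by
          rintro (i | y') hx
          · exact hw1 i
          · obtain ⟨j, hj⟩ := hx y' rfl
            obtain ⟨l, hl⟩ := hw2 j y'.2
            refine ⟨l, hl.trans ?_⟩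
            rw [hj]
        obtain ⟨l, hl⟩ := hcov x hδx
        obtain ⟨l', hl'⟩ := hcov y hδy
        have h1 : v ∘ w ∈ 𝔸 l0 := hz ⟨l0, w⟩ (fun s _ => hw3 s)
        have h2 := hinj l0 _ h1
        have h3 : l = l' := h2 (by simp only [Function.comp, hl, hl', hxy])
        exact hne (hl.symm.trans ((congrArg w h3).trans hl'))
      rcases hl0.e2 v hvinj with ⟨L, hL, hN⟩ | ⟨w, hw1, hw2⟩
      · -- the symmetric case
        exfalso
        have hLc : K ≤ Lᶜ.card := by
          rw [Finset.card_compl, Fintype.card_fin]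
          omega
        obtain ⟨T', hT', hT'c⟩ := Finset.exists_subset_card_eq hLc
        let e := (T'.equivFinOfCardEq hT'c).symm
        let δ : Fin K → Fin q := fun i => e i
        have hδ : Function.Injective δ := fun i j hij => e.injective (Subtype.ext hij)
        have hδL : ∀ i, δ i ∉ L := fun i => Finset.mem_compl.1 (hT' (e i).2)
        have hsym := symT_of_noWit hloc hN hδ hδL
        have hUinj : Function.Injective (fun y : Fin K × F => v (Sum.inr (δ y.1, y.2))) := by
          rintro ⟨i, x⟩ ⟨i', x'⟩ h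
          have h1 := Sum.inr_injective (hvinj h)
          simp only [Prod.mk.injEq] at h1
          rw [hδ h1.1, h1.2]
        obtain ⟨n, ⟨eU⟩⟩ := Finite.exists_equiv_fin (Fin K × F)
        have hn : K ≤ n := by
          have h1 : Nat.card (Fin K × F) = n := by
            rw [Nat.card_congr eU, Nat.card_eq_fintype_card, Fintype.card_fin]
          rw [Nat.card_prod, Nat.card_eq_fintype_card, Fintype.card_fin] at h1
          have h2 : 1 ≤ Nat.card F := by
            have : Nonempty F := hFne.to_subtype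
            exact Nat.card_pos
          nlinarith
        apply hT
        refine hk0 𝔸 hinv n ((fun y : Fin K × F => v (Sum.inr (δ y.1, y.2))) ∘ eU.symm)
          (hk0K.trans hn) (hUinj.comp eU.symm.injective) (hsym.comp eU.symm.injective) ?_
        -- it meets all the nonempty relations
        have hcase : ∀ l, (𝔸 l).Nonempty → ∃ x : Fin (ar l) → Fin K × F, Function.Injective x ∧
            (fun i => v (Sum.inr (δ (x i).1, (x i).2))) ∈ 𝔸 l := by
          intro l hl
          rcases hgood l with hr | ⟨hK, h', hg⟩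
          · obtain ⟨γ, hγ⟩ := hl
            obtain ⟨x, hx⟩ := hF (ar l) hr γ
            have hxinj : Function.Injective x := by
              have := same_inj hx.symm (hinj l γ hγ)
              intro i j hij
              exact this (congrArg Subtype.val hij)
            refine ⟨fun i => (⟨0, by omega⟩, x i), fun i j hij => hxinj (Prod.mk.inj hij).2, ?_⟩
            refine hz ⟨l, fun i => Sum.inr (δ ⟨0, by omega⟩, x i)⟩ ?_
            intro s _
            have h1 : Same G (tgt θ s ∘ fun i => Sum.inr (δ ⟨0, by omega⟩, x i)) γ :=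
              Same.trans ((hθ2 (δ ⟨0, by omega⟩)).comp x) hx
            exact h1.symm.mem (hinv l) hγ
          · obtain ⟨w, hw1, hw2⟩ := hg.e1 (δ ∘ Fin.castLE hK) (hδ.comp (Fin.castLE_injective hK))
            refine ⟨fun i => (Fin.castLE hK (w i).1, (w i).2), fun i j hij => hw1 ?_, ?_⟩
            · have h1 := Prod.mk.inj hij
              exact Prod.ext (Fin.castLE_injective hK h1.1) h1.2
            · exact hz ⟨l, fun i => Sum.inr (δ (Fin.castLE hK (w i).1), (w i).2)⟩
                (fun s _ => hw2)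
        intro l hl
        obtain ⟨x, hx, hxl⟩ := hcase l hl
        refine ⟨eU ∘ x, eU.injective.comp hx, ?_⟩
        have e1 : ((fun y : Fin K × F => v (Sum.inr (δ y.1, y.2))) ∘ eU.symm) ∘ (eU ∘ x) =
            fun i => v (Sum.inr (δ (x i).1, (x i).2)) := by
          funext i
          simp
        rw [e1]
        exact hxl
      · by_contra hu
        apply hw2
        refine hz ⟨l0, w⟩ (fun s hs => hw1 s ?_)
        intro hsame
        apply hu
        exact hsame.mem hS hs
  rw [hmain]
  exact hΦ.ex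

end Run7.h380.IN
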