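import Pool.Agent.W994.AR.Final

/-!
# Families of injective words (helper380)
-/

set_option autoImplicit false

namespace Run7.h380.IN

open Finset
open Pool.Agent.W994.AR
open scoped Classical

variable {B : Type}

/-- disjoint groups of positions, each with an involution -/
structure Grp (V : Type) (h : ℕ) where
  g : V → Option (Fin h)
  ρ : Fin h → V → V
  pres : ∀ j x, g x = some j → g (ρ j x) = some j
  inv : ∀ j x, g x = some j → ρ j (ρ j x) = x

variable {V : Type} {h : ℕ}

/-- apply the involutions of the groups in `c` -/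
noncomputable def Grp.flip (D : Grp V h) (c : Finset (Fin h)) (x : V) : V :=
  if H : ∃ j, D.g x = some j ∧ j ∈ c then D.ρ H.choose x else x

theorem Grp.flip_mem (D : Grp V h) {c : Finset (Fin h)} {x : V} {j : Fin h}
    (hx : D.g x = some j) (hj : j ∈ c) : D.flip c x = D.ρ j x := by
  have H : ∃ j, D.g x = some j ∧ j ∈ c := ⟨j, hx, hj⟩
  have h2 : H.choose = j := Option.some_injective _ (H.choose_spec.1.symm.trans hx)
  unfold Grp.flip
  rw [dif_pos H, h2]

theorem Grp.flip_not_mem (D : Grp V h) {c : Finset (Fin h)} {x : V} {j : Fin h}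
    (hx : D.g x = some j) (hj : j ∉ c) : D.flip c x = x := by
  have H : ¬ ∃ j, D.g x = some j ∧ j ∈ c := by
    rintro ⟨j', h1, h2⟩
    rw [hx] at h1
    exact hj ((Option.some_injective _ h1) ▸ h2)
  unfold Grp.flip
  rw [dif_neg H]

theorem Grp.flip_none (D : Grp V h) {c : Finset (Fin h)} {x : V}
    (hx : D.g x = none) : D.flip c x = x := by
  have H : ¬ ∃ j, D.g x = some j ∧ j ∈ c := by
    rintro ⟨j', h1, _⟩
    rw [hx] at h1
    exact absurd h1 (by simp)
  unfold Grp.flip
  rw [dif_neg H]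

theorem Grp.flip_flip (D : Grp V h) (c : Finset (Fin h)) (x : V) :
    D.flip c (D.flip c x) = x := by
  rcases hx : D.g x with _ | j
  · rw [D.flip_none hx, D.flip_none hx]
  · by_cases hj : j ∈ c
    · rw [D.flip_mem hx hj, D.flip_mem (D.pres j x hx) hj, D.inv j x hx]
    · rw [D.flip_not_mem hx hj, D.flip_not_mem hx hj]

theorem Grp.flip_inj (D : Grp V h) (c : Finset (Fin h)) : Function.Injective (D.flip c) := by
  intro x y hxy
  rw [← D.flip_flip c x, hxy, D.flip_flip]

/-- every involution changes the type of `q` on its group -/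
def Moves (G : Subgroup (Equiv.Perm B)) (D : Grp V h) (q : V → B) : Prop :=
  ∀ j, ∃ (U : Type) (d : U → V), (∀ x, D.g (d x) = some j) ∧ ¬ Same G (q ∘ D.ρ j ∘ d) (q ∘ d)

theorem word_ne {G : Subgroup (Equiv.Perm B)} (D : Grp V h) {q : V → B} (hq : Moves G D q)
    {k : ℕ} {w0 : Fin k → V} (hw0 : ∀ x, D.g x ≠ none → ∃ i, w0 i = x)
    {c c' : Finset (Fin h)} (hs : Same G (q ∘ D.flip c ∘ w0) (q ∘ D.flip c' ∘ w0)) : c = c' := by
  -- the asymmetric statement
  have key : ∀ c c' : Finset (Fin h), Same G (q ∘ D.flip c ∘ w0) (q ∘ D.flip c' ∘ w0) →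
      ∀ j ∈ c, j ∈ c' := by
    intro c c' hs j hj
    by_contra hj'
    obtain ⟨U, d, hd, hne⟩ := hq j
    have h1 : ∀ x, ∃ i, w0 i = d x := fun x => hw0 _ (by rw [hd x]; simp)
    choose d' hd' using h1
    apply hne
    have h2 := hs.comp d'
    have e1 : (q ∘ D.flip c ∘ w0) ∘ d' = q ∘ D.ρ j ∘ d := by
      funext x
      simp only [Function.comp, hd']
      rw [D.flip_mem (hd x) hj]
    have e2 : (q ∘ D.flip c' ∘ w0) ∘ d' = q ∘ d := by
      funext x
      simp only [Function.comp, hd']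
      rw [D.flip_not_mem (hd x) hj']
    rwa [e1, e2] at h2
  ext j
  exact ⟨key c c' hs j, key c' c hs.symm j⟩

theorem word_same {G : Subgroup (Equiv.Perm B)} (D : Grp V h) {q q' : V → B} {U : Type}
    (e : U → V) (he : ∀ x, D.g (e x) = none) {k : ℕ} {w0 : Fin k → V}
    (hw0 : ∀ x, ∃ i, w0 i = e x) {c c' : Finset (Fin h)}
    (hs : Same G (q ∘ D.flip c ∘ w0) (q' ∘ D.flip c' ∘ w0)) : Same G (q ∘ e) (q' ∘ e) := by
  choose e' he' using hw0
  have h2 := hs.comp e'
  have e1 : (q ∘ D.flip c ∘ w0) ∘ e' = q ∘ e := by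
    funext x
    simp only [Function.comp, he']
    rw [D.flip_none (he x)]
  have e2 : (q' ∘ D.flip c' ∘ w0) ∘ e' = q' ∘ e := by
    funext x
    simp only [Function.comp, he']
    rw [D.flip_none (he x)]
  rwa [e1, e2] at h2

theorem exists_word {U : Type} [Fintype U] {k : ℕ} (T : Finset U) (h1 : T.card ≤ k)
    (h2 : k ≤ Fintype.card U) : ∃ w : Fin k → U, Function.Injective w ∧ ∀ x ∈ T, ∃ i, w i = x := by
  obtain ⟨T', hT, -, hc⟩ := Finset.exists_subsuperset_card_eq (Finset.subset_univ T) h1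
    (by rw [Finset.card_univ]; exact h2)
  let e := (T'.equivFinOfCardEq hc).symm
  refine ⟨fun i => (e i : U), fun i j hij => e.injective (Subtype.ext hij), fun x hx => ?_⟩
  refine ⟨e.symm ⟨x, hT hx⟩, ?_⟩
  simp

/-- totally symmetric tuples -/
def SymT (G : Subgroup (Equiv.Perm B)) {U : Type} (v : U → B) : Prop :=
  ∀ π : Equiv.Perm U, Same G (v ∘ π) v

theorem symT_of_swap {G : Subgroup (Equiv.Perm B)} {U : Type} [Finite U] [DecidableEq U]
    {v : U → B}
    (hv : ∀ a b : U, Same G (v ∘ Equiv.swap a b) v) : SymT G v := by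
  intro π
  induction π using Equiv.Perm.swap_induction_on with
  | one => exact Same.refl G _
  | swap_mul f x y _ ih =>
    have h1 := (hv x y).comp f
    have e : (v ∘ Equiv.swap x y) ∘ f = v ∘ (Equiv.swap x y * f : Equiv.Perm U) := rfl
    rw [e] at h1
    exact h1.trans ih

theorem SymT.same {G : Subgroup (Equiv.Perm B)} {U : Type} {v : U → B} (hv : SymT G v)
    {m : ℕ} {x y : Fin m → U} (hx : Function.Injective x) (hy : Function.Injective y) :
    Same G (v ∘ x) (v ∘ y) := by
  have h := Equiv.Perm.isMultiplyPretransitive U m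
  obtain ⟨π, hπ⟩ := MulAction.exists_smul_eq (Equiv.Perm U) (⟨y, hy⟩ : Fin m ↪ U) ⟨x, hx⟩
  have e : v ∘ x = (v ∘ π) ∘ y := by
    funext i
    have := congrArg (fun f : Fin m ↪ U => f i) hπ
    simp only [Function.Embedding.smul_apply, Equiv.Perm.smul_def, Function.Embedding.coeFn_mk]
      at this
    simp [Function.comp, this]
  rw [e]
  exact (hv π).comp y

end Run7.h380.IN
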