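import Pool.Agent.Run7.h380.IN.Sym

/-!
# Disjoint asymmetric groups of blocks (helper380)
-/

set_option autoImplicit false

namespace Run7.h380.IN

open Finset
open Pool.Agent.W994.AR
open scoped Classical

variable {B : Type} {q : ℕ} {F : Type}

/-- no transposition outside of the blocks `L` changes a type -/
def NoWit (G : Subgroup (Equiv.Perm B)) (p : ℕ) (v : Fin q × F → B) (L : Finset (Fin q)) : Prop :=
  ∀ a b : Fin q × F, a.1 ∉ L → b.1 ∉ L → ∀ d : Fin p → Fin q × F, (∀ i, (d i).1 ∉ L) →
    Same G (v ∘ Equiv.swap a b ∘ d) (v ∘ d)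

/-- some transposition within the blocks `X` changes a type, with data -/
def Wit (G : Subgroup (Equiv.Perm B)) (p : ℕ) (v : Fin q × F → B) (X : Finset (Fin q)) : Prop :=
  ∃ a b : Fin q × F, a.1 ∈ X ∧ b.1 ∈ X ∧ ∃ d : Fin p → Fin q × F, (∀ i, (d i).1 ∈ X) ∧
    ¬ Same G (v ∘ Equiv.swap a b ∘ d) (v ∘ d)

theorem greedy (G : Subgroup (Equiv.Perm B)) (p : ℕ) (v : Fin q × F → B) (h : ℕ) :
    (∃ X : Fin h → Finset (Fin q), (∀ j, (X j).card ≤ p + 2) ∧
      (∀ i j, i ≠ j → Disjoint (X i) (X j)) ∧ ∀ j, Wit G p v (X j)) ∨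
    ∃ L : Finset (Fin q), L.card ≤ (p + 2) * h ∧ NoWit G p v L := by
  induction h with
  | zero =>
    left
    exact ⟨fun j => j.elim0, fun j => j.elim0, fun j => j.elim0, fun j => j.elim0⟩
  | succ h ih =>
    rcases ih with ⟨X, h1, h2, h3⟩ | ⟨L, h1, h2⟩
    · set L := (Finset.univ : Finset (Fin h)).biUnion X with hL
      have hLc : L.card ≤ (p + 2) * h := by
        refine Finset.card_biUnion_le.trans ?_
        refine (Finset.sum_le_sum fun j _ => h1 j).trans ?_
        rw [Finset.sum_const, Finset.card_univ, Fintype.card_fin, smul_eq_mul, mul_comm]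
      by_cases hN : NoWit G p v L
      · right
        exact ⟨L, hLc.trans (Nat.mul_le_mul_left _ (Nat.le_succ h)), hN⟩
      · left
        unfold NoWit at hN
        push Not at hN
        obtain ⟨a, b, ha, hb, d, hd, hne⟩ := hN
        set Y : Finset (Fin q) := insert a.1 (insert b.1 (Finset.univ.image fun i => (d i).1)) with hY
        have hYc : Y.card ≤ p + 2 := by
          refine (Finset.card_insert_le _ _).trans ?_
          have := Finset.card_insert_le b.1 (Finset.univ.image fun i => (d i).1)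
          have h4 : (Finset.univ.image fun i => (d i).1).card ≤ p := by
            refine Finset.card_image_le.trans ?_
            simp
          omega
        have hYL : ∀ x ∈ Y, x ∉ L := by
          intro x hx
          rw [hY, Finset.mem_insert, Finset.mem_insert, Finset.mem_image] at hx
          rcases hx with rfl | rfl | ⟨i, -, rfl⟩
          · exact ha
          · exact hb
          · exact hd i
        have hXL : ∀ j, ∀ x ∈ X j, x ∈ L := fun j x hx =>
          Finset.mem_biUnion.2 ⟨j, Finset.mem_univ _, hx⟩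
        have hW : Wit G p v Y := by
          refine ⟨a, b, by simp [hY], by simp [hY], d, fun i => ?_, hne⟩
          rw [hY, Finset.mem_insert, Finset.mem_insert]
          exact Or.inr (Or.inr (Finset.mem_image_of_mem _ (Finset.mem_univ i)))
        refine ⟨Fin.snoc X Y, ?_, ?_, ?_⟩
        · intro j
          refine Fin.lastCases ?_ (fun j => ?_) j
          · simpa using hYc
          · simpa using h1 j
        · intro i j hij
          induction i using Fin.lastCases with
          | last =>
            induction j using Fin.lastCases with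
            | last => exact absurd rfl hij
            | cast j =>
              simp only [Fin.snoc_last, Fin.snoc_castSucc]
              rw [Finset.disjoint_left]
              exact fun x hx hx' => hYL x hx (hXL j x hx')
          | cast i =>
            induction j using Fin.lastCases with
            | last =>
              simp only [Fin.snoc_last, Fin.snoc_castSucc]
              rw [Finset.disjoint_left]
              exact fun x hx hx' => hYL x hx' (hXL i x hx)
            | cast j =>
              simp only [Fin.snoc_castSucc]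
              exact h2 i j (fun h => hij (by rw [h]))
        · intro j
          refine Fin.lastCases ?_ (fun j => ?_) j
          · simpa using hW
          · simpa using h3 j
    · right
      exact ⟨L, h1.trans (Nat.mul_le_mul_left _ (Nat.le_succ h)), h2⟩

theorem symT_of_noWit {G : Subgroup (Equiv.Perm B)} {p : ℕ} (hloc : Local G p) [Finite F]
    {v : Fin q × F → B} {L : Finset (Fin q)} (hN : NoWit G p v L) {n : ℕ} {δ : Fin n → Fin q}
    (hδ : Function.Injective δ) (hδL : ∀ i, δ i ∉ L) :
    SymT G (fun y : Fin n × F => v (δ y.1, y.2)) := by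
  apply symT_of_swap
  intro a b
  have : Nonempty (Fin n × F) := ⟨a⟩
  apply hloc
  intro t
  have hinj : Function.Injective (fun y : Fin n × F => ((δ y.1, y.2) : Fin q × F)) := by
    rintro ⟨i, x⟩ ⟨i', x'⟩ h
    simp only [Prod.mk.injEq] at h
    rw [hδ h.1, h.2]
  have h1 := hN (δ a.1, a.2) (δ b.1, b.2) (hδL _) (hδL _) (fun i => (δ (t i).1, (t i).2))
    (fun i => hδL _)
  have e : ((fun y : Fin n × F => v (δ y.1, y.2)) ∘ Equiv.swap a b) ∘ t =
      v ∘ Equiv.swap ((δ a.1, a.2) : Fin q × F) (δ b.1, b.2) ∘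
        (fun i => ((δ (t i).1, (t i).2) : Fin q × F)) := by
    funext i
    have := hinj.map_swap a b (t i)
    simp only [Function.comp]
    rw [← this]
  rw [e]
  exact h1

/-- groups of blocks: `δ j` is an asymmetric block, `X j` contains the transposition `a j`, `b j` -/
structure Sys (q h : ℕ) (F : Type) where
  δ : Fin h → Fin q
  δ_inj : Function.Injective δ
  X : Fin h → Finset (Fin q)
  dis : ∀ i j, i ≠ j → Disjoint (X i) (X j)
  sep : ∀ i j, δ i ∉ X j
  a : Fin h → Fin q × F
  b : Fin h → Fin q × F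
  mem : ∀ j, (X j).Nonempty → (a j).1 ∈ X j ∧ (b j).1 ∈ X j

variable {h r : ℕ}

/-- the group of a position -/
noncomputable def Sys.grp (S : Sys q h F) : Fin r ⊕ (Fin q × F) → Option (Fin h)
  | Sum.inl _ => none
  | Sum.inr y => if H : ∃ j, y.1 = S.δ j ∨ y.1 ∈ S.X j then some H.choose else none

theorem Sys.grp_iff (S : Sys q h F) (y : Fin q × F) (j : Fin h) :
    S.grp (r := r) (Sum.inr y) = some j ↔ y.1 = S.δ j ∨ y.1 ∈ S.X j := by
  have huniq : ∀ i j, (y.1 = S.δ i ∨ y.1 ∈ S.X i) → (y.1 = S.δ j ∨ y.1 ∈ S.X j) → i = j := by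
    rintro i j (h1 | h1) (h2 | h2)
    · exact S.δ_inj (h1.symm.trans h2)
    · exact absurd (h1 ▸ h2) (S.sep i j)
    · exact absurd (h2 ▸ h1) (S.sep j i)
    · by_contra hij
      exact Finset.disjoint_left.1 (S.dis i j hij) h1 h2
  unfold Sys.grp
  simp only
  constructor
  · intro h1
    split_ifs at h1 with H
    have := Option.some_injective _ h1
    rw [← this]
    exact H.choose_spec
  · intro h1
    have H : ∃ j, y.1 = S.δ j ∨ y.1 ∈ S.X j := ⟨j, h1⟩
    rw [dif_pos H]
    rw [huniq _ _ H.choose_spec h1]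

/-- the involutions -/
noncomputable def Sys.rho (S : Sys q h F) (x0 x1 : F) (j : Fin h) :
    Fin r ⊕ (Fin q × F) → Fin r ⊕ (Fin q × F)
  | Sum.inl i => Sum.inl i
  | Sum.inr y => Sum.inr (if y.1 = S.δ j then Equiv.swap (S.δ j, x0) (S.δ j, x1) y else
      Equiv.swap (S.a j) (S.b j) y)

theorem swap_block (i : Fin q) (x0 x1 : F) (y : Fin q × F) (hy : y.1 = i) :
    (Equiv.swap ((i, x0) : Fin q × F) (i, x1) y).1 = i := by
  rw [Equiv.swap_apply_def]
  split_ifs <;> simp [hy]

theorem swap_mem {X : Finset (Fin q)} {a b y : Fin q × F} (ha : a.1 ∈ X) (hb : b.1 ∈ X)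
    (hy : y.1 ∈ X) : (Equiv.swap a b y).1 ∈ X := by
  rw [Equiv.swap_apply_def]
  split_ifs <;> assumption

/-- the groups of a system -/
noncomputable def Sys.toGrp (S : Sys q h F) (x0 x1 : F) : Grp (Fin r ⊕ (Fin q × F)) h where
  g := S.grp
  ρ := S.rho x0 x1
  pres := by
    rintro j (i | y) hx
    · exact hx
    · rw [S.grp_iff] at hx
      unfold Sys.rho
      simp only
      rw [S.grp_iff]
      by_cases hy : y.1 = S.δ j
      · rw [if_pos hy]
        exact Or.inl (swap_block _ _ _ _ hy)
      · rw [if_neg hy]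
        have hX := hx.resolve_left hy
        have hm := S.mem j ⟨_, hX⟩
        exact Or.inr (swap_mem hm.1 hm.2 hX)
  inv := by
    rintro j (i | y) hx
    · rfl
    · rw [S.grp_iff] at hx
      unfold Sys.rho
      simp only
      by_cases hy : y.1 = S.δ j
      · rw [if_pos hy, if_pos (swap_block _ _ _ _ hy), Equiv.swap_apply_self]
      · have hX := hx.resolve_left hy
        have hm := S.mem j ⟨_, hX⟩
        have h2 : (Equiv.swap (S.a j) (S.b j) y).1 ∈ S.X j := swap_mem hm.1 hm.2 hX
        have h3 : (Equiv.swap (S.a j) (S.b j) y).1 ≠ S.δ j := fun h => S.sep j j (h ▸ h2)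
        rw [if_neg hy, if_neg h3, Equiv.swap_apply_self]

theorem moves_of_blocks {G : Subgroup (Equiv.Perm B)} (S : Sys q h F) {x0 x1 : F} {β : F → B}
    (hβ : ¬ Same G (β ∘ Equiv.swap x0 x1) β) {T : Fin r ⊕ (Fin q × F) → B}
    (hT : ∀ l, Same G (fun x => T (Sum.inr (l, x))) β) : Moves G (S.toGrp x0 x1) T := by
  intro j
  refine ⟨F, fun x => Sum.inr (S.δ j, x), fun x => (S.grp_iff (r := r) _ j).2 (Or.inl rfl), ?_⟩
  intro hs
  apply hβ
  have h1 := (hT (S.δ j)).comp (Equiv.swap x0 x1)
  have e : (T ∘ (S.toGrp x0 x1).ρ j ∘ fun x => Sum.inr (S.δ j, x)) =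
      (fun x => T (Sum.inr (S.δ j, x))) ∘ Equiv.swap x0 x1 := by
    funext x
    have hinj : Function.Injective (fun x : F => ((S.δ j, x) : Fin q × F)) := fun x y h => by
      simpa using h
    have h3 := hinj.map_swap x0 x1 x
    show T (Sum.inr (if (S.δ j : Fin q) = S.δ j then
      Equiv.swap (S.δ j, x0) (S.δ j, x1) ((S.δ j, x) : Fin q × F) else _)) = _
    rw [if_pos rfl, ← h3]
    rfl
  rw [e] at hs
  exact (h1.symm.trans hs).trans (hT (S.δ j))

theorem moves_of_wit {G : Subgroup (Equiv.Perm B)} {p : ℕ} (S : Sys q h F) (x0 x1 : F)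
    {v : Fin r ⊕ (Fin q × F) → B}
    (hW : ∀ j, ∃ d : Fin p → Fin q × F, (∀ i, (d i).1 ∈ S.X j) ∧
      ¬ Same G ((fun y => v (Sum.inr y)) ∘ Equiv.swap (S.a j) (S.b j) ∘ d)
        ((fun y => v (Sum.inr y)) ∘ d)) : Moves G (S.toGrp x0 x1) v := by
  intro j
  obtain ⟨d, hd, hne⟩ := hW j
  refine ⟨Fin p, fun i => Sum.inr (d i), fun i => (S.grp_iff (r := r) _ j).2 (Or.inr (hd i)), ?_⟩
  have e : (v ∘ (S.toGrp x0 x1).ρ j ∘ fun i => Sum.inr (d i)) =
      (fun y => v (Sum.inr y)) ∘ Equiv.swap (S.a j) (S.b j) ∘ d := by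
    funext i
    have h3 : (d i).1 ≠ S.δ j := fun h => S.sep j j (h ▸ hd i)
    show v (Sum.inr (if (d i).1 = S.δ j then _ else Equiv.swap (S.a j) (S.b j) (d i))) = _
    rw [if_neg h3]
    rfl
  rw [e]
  exact hne

theorem Sys.exists_word [Fintype F] (S : Sys q h F) (x0 x1 : F) {p k : ℕ}
    (hc : ∀ j, (S.X j).card ≤ p + 2) (h1 : r + h * ((p + 3) * Fintype.card F) ≤ k)
    (h2 : k ≤ r + q * Fintype.card F) : ∃ w : Fin k → Fin r ⊕ (Fin q × F),
      Function.Injective w ∧ (∀ i : Fin r, ∃ l, w l = Sum.inl i) ∧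
        ∀ x, (S.toGrp (r := r) x0 x1).g x ≠ none → ∃ l, w l = x := by
  set T : Finset (Fin r ⊕ (Fin q × F)) := (Finset.univ : Finset (Fin r)).image Sum.inl ∪
    ((Finset.univ : Finset (Fin h)).biUnion (fun j => (insert (S.δ j) (S.X j)) ×ˢ
      (Finset.univ : Finset F))).image Sum.inr with hT
  have hTc : T.card ≤ r + h * ((p + 3) * Fintype.card F) := by
    refine (Finset.card_union_le _ _).trans (Nat.add_le_add ?_ ?_)
    · refine Finset.card_image_le.trans ?_
      simp
    · refine Finset.card_image_le.trans (Finset.card_biUnion_le.trans ?_)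
      refine (Finset.sum_le_sum (g := fun _ => (p + 3) * Fintype.card F) fun j _ => ?_).trans ?_
      · rw [Finset.card_product, Finset.card_univ]
        refine Nat.mul_le_mul_right _ ?_
        have := Finset.card_insert_le (S.δ j) (S.X j)
        have := hc j
        omega
      · rw [Finset.sum_const, Finset.card_univ, Fintype.card_fin, smul_eq_mul]
  obtain ⟨w, hw, hw'⟩ := Run7.h380.IN.exists_word (k := k) T (hTc.trans h1) (by
    simpa [Fintype.card_sum, Fintype.card_prod] using h2)
  refine ⟨w, hw, fun i => hw' _ ?_, fun x hx => hw' _ ?_⟩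
  · exact Finset.mem_union_left _ (Finset.mem_image_of_mem _ (Finset.mem_univ i))
  · rcases x with i | y
    · exact absurd rfl hx
    · obtain ⟨j, hj⟩ := Option.ne_none_iff_exists'.1 hx
      have hj' := (S.grp_iff (r := r) y j).1 hj
      apply Finset.mem_union_right
      apply Finset.mem_image_of_mem
      rw [Finset.mem_biUnion]
      refine ⟨j, Finset.mem_univ _, ?_⟩
      rw [Finset.mem_product, Finset.mem_insert]
      exact ⟨hj', Finset.mem_univ _⟩

end Run7.h380.IN
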