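import Pool.Agent.Run7.h380.IN.Theta

/-!
# Templates that pp-define the injective invariant relations are hard (helper380)
-/

set_option autoImplicit false

namespace Run7.h380.IN

open Finset
open Pool.Agent.W994.AR
open scoped Classical

variable {B : Type}

/-- all the injective invariant relations of arity at most `r` are pp-definable -/
def InjMax (G : Subgroup (Equiv.Perm B)) (r : ℕ) {ι : Type} {ar : ι → ℕ} (𝔸 : Str ι ar B) : Prop :=
  ∀ (V : Type) [Finite V], Nat.card V ≤ r → ∀ S : Set (V → B), Invar G S →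
    (∀ u ∈ S, Function.Injective u) → PPDef 𝔸 S

theorem extend_inj [Infinite B] {V : Type} {r : ℕ} (i : V ↪ Fin r) {v : V → B}
    (hv : Function.Injective v) : ∃ w : Fin r → B, Function.Injective w ∧ w ∘ i = v := by
  have hfV : Finite V := Finite.of_injective i i.injective
  have hinf : (Set.range v)ᶜ.Infinite := (Set.finite_range v).infinite_compl
  have : Infinite ((Set.range v)ᶜ : Set B) := hinf.to_subtype
  let f : Fin r ↪ ((Set.range v)ᶜ : Set B) :=
    ⟨fun x => Infinite.natEmbedding ((Set.range v)ᶜ : Set B) x, fun a b hab =>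
      Fin.ext ((Infinite.natEmbedding ((Set.range v)ᶜ : Set B)).injective hab)⟩
  refine ⟨fun x => if h : ∃ a, i a = x then v h.choose else (f x : B), ?_, ?_⟩
  · intro x y hxy
    simp only at hxy
    by_cases hx : ∃ a, i a = x <;> by_cases hy : ∃ a, i a = y
    · rw [dif_pos hx, dif_pos hy] at hxy
      rw [← hx.choose_spec, ← hy.choose_spec, hv hxy]
    · rw [dif_pos hx, dif_neg hy] at hxy
      exact absurd ⟨_, hxy⟩ (f y).2
    · rw [dif_neg hx, dif_pos hy] at hxy
      exact absurd ⟨_, hxy.symm⟩ (f x).2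
    · rw [dif_neg hx, dif_neg hy] at hxy
      exact f.injective (Subtype.ext hxy)
  · funext a
    have h : ∃ a', i a' = i a := ⟨a, rfl⟩
    show (if h : ∃ a', i a' = i a then v h.choose else (f (i a) : B)) = v a
    rw [dif_pos h]
    exact congrArg v (i.injective h.choose_spec)

theorem injMax_of {G : Subgroup (Equiv.Perm B)} [Infinite B] {r : ℕ} {ι : Type} {ar : ι → ℕ}
    {𝔸 : Str ι ar B} (hall : ∀ S : Set (Fin r → B), Invar G S →
      (∀ u ∈ S, Function.Injective u) → PP 𝔸 S) (V : Type) [Finite V] (hV : Nat.card V ≤ r)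
    (S : Set (V → B)) (hS : Invar G S) (hSi : ∀ u ∈ S, Function.Injective u) : PP 𝔸 S := by
  obtain ⟨n, ⟨e⟩⟩ := Finite.exists_equiv_fin V
  have hn : n ≤ r := by
    rw [Nat.card_congr e, Nat.card_eq_fintype_card, Fintype.card_fin] at hV
    exact hV
  let i : V ↪ Fin r := ⟨fun x => Fin.castLE hn (e x), fun a b hab =>
    e.injective (Fin.castLE_injective hn hab)⟩
  let Sr : Set (Fin r → B) := {w | Function.Injective w ∧ w ∘ i ∈ S}
  have hSr : PP 𝔸 Sr := by
    apply hall
    · rintro g hg w ⟨h1, h2⟩
      exact ⟨g.injective.comp h1, hS g hg _ h2⟩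
    · rintro w ⟨h1, _⟩
      exact h1
  let Ψ : Set (V ⊕ Fin r → B) := {z | z ∘ Sum.inr ∈ Sr} ∩
    {z | ∀ x ∈ (Set.univ : Set V), z ∈ {z : V ⊕ Fin r → B | z (Sum.inl x) = z (Sum.inr (i x))}}
  have hΨ : PP 𝔸 Ψ := (hSr.subst Sum.inr).inter
    (PP.iInter _ Set.finite_univ (fun x => {z : V ⊕ Fin r → B | z (Sum.inl x) = z (Sum.inr (i x))})
      (fun x _ => PP.eq _ _))
  have hmain : S = {v | ∃ w : Fin r → B, Sum.elim v w ∈ Ψ} := by
    ext v
    constructor
    · intro hv
      obtain ⟨w, hw, hwi⟩ := extend_inj i (hSi v hv)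
      refine ⟨w, ⟨hw, ?_⟩, ?_⟩
      · show (Sum.elim v w ∘ Sum.inr) ∘ i ∈ S
        have : (Sum.elim v w ∘ Sum.inr) ∘ i = v := by
          rw [← hwi]; rfl
        rw [this]
        exact hv
      · intro x _
        show v x = w (i x)
        rw [← hwi]; rfl
    · rintro ⟨w, ⟨h1, h2⟩, h3⟩
      have : (Sum.elim v w ∘ Sum.inr) ∘ i = v := by
        funext x
        exact (h3 x (Set.mem_univ x)).symm
      rw [this] at h2
      exact h2
  rw [hmain]
  exact hΨ.ex

/-- the colour of a pair of tuples -/
noncomputable def col (G : Subgroup (Equiv.Perm B)) {m : ℕ} (u a b : Fin m → B) : Fin 3 :=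
  if Same G u a then (if Same G u b then 0 else 1) else 2

theorem k3_of_injMax {G : Subgroup (Equiv.Perm B)} (hG : Free G) {m r : ℕ} {u v : Fin m → B}
    (hu : Function.Injective u) (hv : Function.Injective v) (huv : ¬ Same G u v)
    (hr : 4 * m ≤ r) {ι : Type} {ar : ι → ℕ} {𝔸 : Str ι ar B}
    (hall : ∀ (V : Type) [Finite V], Nat.card V ≤ r → ∀ S : Set (V → B), Invar G S →
      (∀ u ∈ S, Function.Injective u) → PP 𝔸 S) : PPConstructsK3 𝔸 := by
  have hm : 1 ≤ m := by
    by_contra hcon
    have : m = 0 := by omega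
    subst this
    exact huv ⟨1, G.one_mem, fun i => i.elim0⟩
  have hinv : ∀ g ∈ G, ∀ a : Fin m → B, Same G u (fun i => g (a i)) ↔ Same G u a := by
    intro g hg a
    have h1 : Same G a (fun i => g (a i)) := ⟨g, hg, fun _ => rfl⟩
    exact ⟨fun h => h.trans h1.symm, fun h => h.trans h1⟩
  let Q : Type := (Fin 2 × Fin 2) × Fin m
  let N : Type := Fin (2 * m) ⊕ Fin (2 * m)
  let pos : Fin 2 → Fin m → Fin (2 * m) := fun i l => finProdFinEquiv (i, l)
  let side : Fin 2 → Fin (2 * m) → N := fun a x => if a = 0 then Sum.inl x else Sum.inr x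
  -- the injective relations
  let D : Set (Q → B) := {y | Function.Injective y ∧
    col G u (fun l => y ((0, 0), l)) (fun l => y ((0, 1), l)) ≠
      col G u (fun l => y ((1, 0), l)) (fun l => y ((1, 1), l))}
  let S : Set (Fin m ⊕ Fin m → B) := {z | Function.Injective z ∧
    (Same G u (z ∘ Sum.inl) ↔ Same G u (z ∘ Sum.inr))}
  have hD : PP 𝔸 D := by
    apply hall
    · rw [Nat.card_prod, Nat.card_prod, Nat.card_eq_fintype_card, Nat.card_eq_fintype_card,
        Fintype.card_fin, Fintype.card_fin]
      omega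
    · rintro g hg y ⟨h1, h2⟩
      refine ⟨g.injective.comp h1, ?_⟩
      unfold col at h2 ⊢
      rw [hinv g hg (fun l => y ((0, 0), l)), hinv g hg (fun l => y ((0, 1), l)),
        hinv g hg (fun l => y ((1, 0), l)), hinv g hg (fun l => y ((1, 1), l))]
      exact h2
    · rintro y ⟨h1, _⟩
      exact h1
  have hS : PP 𝔸 S := by
    apply hall
    · rw [Nat.card_sum, Nat.card_eq_fintype_card, Fintype.card_fin]
      omega
    · rintro g hg y ⟨h1, h2⟩
      refine ⟨g.injective.comp h1, ?_⟩
      have e1 := hinv g hg (y ∘ Sum.inl)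
      have e2 := hinv g hg (y ∘ Sum.inr)
      exact (e1.trans h2).trans e2.symm
    · rintro y ⟨h1, _⟩
      exact h1
  let sub : Fin 2 × Fin 2 → Fin m ⊕ Fin m → N ⊕ Q := fun p =>
    Sum.elim (fun l => Sum.inl (side p.1 (pos p.2 l))) (fun l => Sum.inr (p, l))
  let Ψ : Set (N ⊕ Q → B) := {z | z ∘ Sum.inr ∈ D} ∩
    {z | ∀ p ∈ (Set.univ : Set (Fin 2 × Fin 2)), z ∈ {z : N ⊕ Q → B | z ∘ sub p ∈ S}}
  have hΨ : PP 𝔸 Ψ := (hD.subst Sum.inr).inter
    (PP.iInter _ Set.finite_univ (fun p => {z : N ⊕ Q → B | z ∘ sub p ∈ S})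
      (fun p _ => hS.subst (sub p)))
  let E : Set (N → B) := {z | ∃ y : Q → B, Sum.elim z y ∈ Ψ}
  have hE : PP 𝔸 E := hΨ.ex
  -- the colours
  let code : Fin 3 → Fin 2 → Fin m → B := fun c i =>
    if c = 0 then u else if c = 1 then (if i = 0 then u else v) else (if i = 0 then v else u)
  have hcode : ∀ c, col G u (code c 0) (code c 1) = c := by
    intro c
    have h1 : Same G u u := Same.refl G u
    fin_cases c <;> simp [code, col, h1, huv]
  have hcodei : ∀ c i, Function.Injective (code c i) := by
    intro c i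
    simp only [code]
    split_ifs <;> assumption
  let F : Finset B := Finset.univ.image u ∪ Finset.univ.image v
  have hcodeF : ∀ c i l, code c i l ∈ F := by
    intro c i l
    have h1 : u l ∈ F := Finset.mem_union_left _ (Finset.mem_image_of_mem _ (Finset.mem_univ l))
    have h2 : v l ∈ F := Finset.mem_union_right _ (Finset.mem_image_of_mem _ (Finset.mem_univ l))
    simp only [code]
    split_ifs <;> assumption
  obtain ⟨θ, hθi, hθE, hθ2⟩ := exists_theta hG F (E := (F : Set B)) (Finset.finite_toSet F) 4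
  refine ⟨2 * m, E, by omega, hE.toPPDef, ⟨fun c x => code c (finProdFinEquiv.symm x).1
    (finProdFinEquiv.symm x).2, ?_⟩, ⟨fun x => col G u (fun l => x (pos 0 l)) (fun l => x (pos 1 l)),
    ?_⟩⟩
  · intro c c' hcc
    -- the copies
    let cc : Fin 2 → Fin 3 := fun a => if a = 0 then c else c'
    let y : Q → B := fun x => θ (finProdFinEquiv (m := 2) (n := 2) x.1,
      ⟨code (cc x.1.1) x.1.2 x.2, hcodeF _ _ _⟩)
    have hy2 : ∀ p : Fin 2 × Fin 2, Same G (fun l => y (p, l)) (code (cc p.1) p.2) := by
      intro p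
      exact (hθ2 (finProdFinEquiv (m := 2) (n := 2) p)).comp
        (fun l => ⟨code (cc p.1) p.2 l, hcodeF _ _ _⟩)
    have hyi : Function.Injective y := by
      rintro ⟨p, l⟩ ⟨p', l'⟩ h
      have h1 := Prod.mk.inj (hθi h)
      have h2 : p = p' := (finProdFinEquiv (m := 2) (n := 2)).injective h1.1
      subst h2
      have h3 := congrArg Subtype.val h1.2
      have h4 : l = l' := hcodei _ _ h3
      rw [h4]
    have hiff : ∀ p : Fin 2 × Fin 2, Same G u (fun l => y (p, l)) ↔ Same G u (code (cc p.1) p.2) :=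
      fun p => ⟨fun h => h.trans (hy2 p), fun h => h.trans (hy2 p).symm⟩
    refine ⟨y, ⟨hyi, ?_⟩, ?_⟩
    · show col G u (fun l => y ((0, 0), l)) (fun l => y ((0, 1), l)) ≠
        col G u (fun l => y ((1, 0), l)) (fun l => y ((1, 1), l))
      have h1 : col G u (fun l => y ((0, 0), l)) (fun l => y ((0, 1), l)) = c := by
        rw [← hcode c]
        unfold col
        rw [hiff (0, 0), hiff (0, 1)]
        simp [cc]
      have h2 : col G u (fun l => y ((1, 0), l)) (fun l => y ((1, 1), l)) = c' := by
        rw [← hcode c']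
        unfold col
        rw [hiff (1, 0), hiff (1, 1)]
        simp [cc]
      rw [h1, h2]
      exact hcc
    · intro p _
      have hz : ∀ l, (Sum.elim (Sum.elim (fun x => code c (finProdFinEquiv.symm x).1
          (finProdFinEquiv.symm x).2) (fun x => code c' (finProdFinEquiv.symm x).1
          (finProdFinEquiv.symm x).2)) y : N ⊕ Q → B) (sub p (Sum.inl l)) =
          code (cc p.1) p.2 l := by
        intro l
        obtain ⟨a, i⟩ := p
        by_cases h0 : a = 0
        · subst h0
          show code c (finProdFinEquiv.symm (finProdFinEquiv (i, l))).1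
            (finProdFinEquiv.symm (finProdFinEquiv (i, l))).2 = code c i l
          rw [Equiv.symm_apply_apply]
        · have h1 : a = 1 := by omega
          subst h1
          show code c' (finProdFinEquiv.symm (finProdFinEquiv (i, l))).1
            (finProdFinEquiv.symm (finProdFinEquiv (i, l))).2 = code c' i l
          rw [Equiv.symm_apply_apply]
      have hz2 : ∀ l, (Sum.elim (Sum.elim (fun x => code c (finProdFinEquiv.symm x).1
          (finProdFinEquiv.symm x).2) (fun x => code c' (finProdFinEquiv.symm x).1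
          (finProdFinEquiv.symm x).2)) y : N ⊕ Q → B) (sub p (Sum.inr l)) = y (p, l) :=
        fun l => rfl
      refine ⟨?_, ?_⟩
      · rintro (l | l) (l' | l') h
        · simp only [Function.comp] at h
          rw [hz, hz] at h
          rw [hcodei _ _ h]
        · simp only [Function.comp] at h
          rw [hz, hz2] at h
          exact absurd (h ▸ hcodeF (cc p.1) p.2 l) (fun h5 => hθE _ h5)
        · simp only [Function.comp] at h
          rw [hz, hz2] at h
          exact absurd (h ▸ hcodeF (cc p.1) p.2 l') (fun h5 => hθE _ h5)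
        · simp only [Function.comp] at h
          rw [hz2, hz2] at h
          have h5 : ((p, l) : (Fin 2 × Fin 2) × Fin m) = (p, l') := hyi h
          rw [(Prod.mk.inj h5).2]
      · have e1 : ((Sum.elim (Sum.elim (fun x => code c (finProdFinEquiv.symm x).1
          (finProdFinEquiv.symm x).2) (fun x => code c' (finProdFinEquiv.symm x).1
          (finProdFinEquiv.symm x).2)) y : N ⊕ Q → B) ∘ sub p) ∘ Sum.inl = code (cc p.1) p.2 :=
          funext hz
        have e2 : ((Sum.elim (Sum.elim (fun x => code c (finProdFinEquiv.symm x).1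
          (finProdFinEquiv.symm x).2) (fun x => code c' (finProdFinEquiv.symm x).1
          (finProdFinEquiv.symm x).2)) y : N ⊕ Q → B) ∘ sub p) ∘ Sum.inr = fun l => y (p, l) :=
          funext hz2
        rw [e1, e2]
        exact (hiff p).symm
  · rintro x x' ⟨y, ⟨_, hcol⟩, hsub⟩
    have hp : ∀ p : Fin 2 × Fin 2,
        (Same G u (fun l => (Sum.elim x x' : N → B) (side p.1 (pos p.2 l))) ↔
          Same G u (fun l => y (p, l))) := fun p => (hsub p (Set.mem_univ p)).2
    have h00 := hp (0, 0)
    have h01 := hp (0, 1)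
    have h10 := hp (1, 0)
    have h11 := hp (1, 1)
    have e1 : col G u (fun l => x (pos 0 l)) (fun l => x (pos 1 l)) =
        col G u (fun l => y ((0, 0), l)) (fun l => y ((0, 1), l)) := by
      have h00' : Same G u (fun l => x (pos 0 l)) ↔ Same G u (fun l => y ((0, 0), l)) := h00
      have h01' : Same G u (fun l => x (pos 1 l)) ↔ Same G u (fun l => y ((0, 1), l)) := h01
      unfold col
      simp only [h00', h01']
    have e2 : col G u (fun l => x' (pos 0 l)) (fun l => x' (pos 1 l)) =
        col G u (fun l => y ((1, 0), l)) (fun l => y ((1, 1), l)) := by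
      have h10' : Same G u (fun l => x' (pos 0 l)) ↔ Same G u (fun l => y ((1, 0), l)) := h10
      have h11' : Same G u (fun l => x' (pos 1 l)) ↔ Same G u (fun l => y ((1, 1), l)) := h11
      unfold col
      simp only [h10', h11']
    show col G u (fun l => x (pos 0 l)) (fun l => x (pos 1 l)) ≠
      col G u (fun l => x' (pos 0 l)) (fun l => x' (pos 1 l))
    rw [e1, e2]
    exact hcol

end Run7.h380.IN
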