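import Pool.Agent.Run7.h380.IN.Bound
import Pool.Agent.Run7.h380.IN.K3

/-!
# The dichotomy for random templates of injective relations (helper380)
-/

set_option autoImplicit false

namespace Run7.h380.IN

open Finset
open Pool.Agent.W994.AR
open Pool.Agent.N455.CS
open scoped Classical

variable {B : Type}

/-- Every template which consists of finitely many invariant injective relations `Γ` of arity at
most `r` and of at least one of the relations `R j` is trivial or is as hard as possible. -/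
def InjDichotomy (G : Subgroup (Equiv.Perm B)) (r : ℕ) {t : ℕ} {k : Fin t → ℕ}
    (R : ∀ j, Set (Fin (k j) → B)) : Prop :=
  ∀ (ι : Type) [Finite ι] (arΓ : ι → ℕ) (Γ : Str ι arΓ B), (∀ l, arΓ l ≤ r) →
    (∀ l, Invar G (Γ l)) → (∀ l, ∀ u ∈ Γ l, Function.Injective u) →
    ∀ (s : ℕ) (e : Fin s → Fin t), 1 ≤ s →
      Triv G (expand Γ (fun j => R (e j))) ∨
        (InjMax G r (expand Γ (fun j => R (e j))) ∧ PPConstructsK3 (expand Γ (fun j => R (e j))))

theorem orb_card_le {σ : Type} [Fintype σ] {ar : σ → ℕ} {𝔹 : Str σ ar B} (hB : Homogeneous 𝔹)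
    (V : Type) [Finite V] [Nonempty V] {p : ℕ} (hp : ∀ i, ar i ≤ p) :
    Nat.card (Orb (autGroup 𝔹) V) ≤
      2 ^ (Nat.card V * Nat.card V + Fintype.card σ * Nat.card V ^ p) := by
  let f : (V → B) → (V → V → Prop) × (∀ i, (Fin (ar i) → V) → Prop) := fun v =>
    (fun i j => v i = v j, fun i s => v ∘ s ∈ 𝔹 i)
  have hle : Nat.card (Orb (autGroup 𝔹) V) ≤
      Nat.card ((V → V → Prop) × (∀ i, (Fin (ar i) → V) → Prop)) := by
    apply Nat.card_le_card_of_injective (fun o : Orb (autGroup 𝔹) V => f o.out)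
    intro o o' h
    simp only [f, Prod.mk.injEq] at h
    have h1 : Same (autGroup 𝔹) o.out o'.out := hom_same hB _ _
      (fun i j => by have := congrFun (congrFun h.1 i) j; exact iff_of_eq this)
      (fun i s => by have := congrFun (congrFun h.2 i) s; exact iff_of_eq this)
    have h2 : (Quotient.mk (orb (autGroup 𝔹) V) o.out) = Quotient.mk (orb (autGroup 𝔹) V) o'.out :=
      Quotient.sound h1
    rwa [Quotient.out_eq, Quotient.out_eq] at h2
  refine hle.trans ?_
  have hP : Nat.card Prop = 2 := by simp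
  have hV : 1 ≤ Nat.card V := Nat.card_pos
  rw [Nat.card_prod, Nat.card_fun, Nat.card_fun, Nat.card_pi, hP, pow_add, ← pow_mul]
  refine Nat.mul_le_mul_left _ ?_
  calc ∏ i : σ, Nat.card ((Fin (ar i) → V) → Prop)
      ≤ ∏ _i : σ, 2 ^ (Nat.card V ^ p) := by
        refine Finset.prod_le_prod' fun i _ => ?_
        rw [Nat.card_fun, Nat.card_fun, hP, Nat.card_eq_fintype_card (α := Fin (ar i)),
          Fintype.card_fin]
        exact Nat.pow_le_pow_right (by norm_num) (Nat.pow_le_pow_right hV (hp i))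
    _ = 2 ^ (Fintype.card σ * Nat.card V ^ p) := by
        rw [Finset.prod_const, Finset.card_univ, ← pow_mul, mul_comm]

theorem finite_iomega {G : Subgroup (Equiv.Perm B)} (hfin : ∀ k, Finite (Orb G (Fin k)))
    {t : ℕ} (k : Fin t → ℕ) : Finite (IOmega G k) := by
  have : ∀ j, Finite (Quotient (iorb G (k j))) := by
    intro j
    have := hfin (k j)
    refine Finite.of_injective (β := Orb G (Fin (k j)))
      (fun x => Quotient.lift (s := iorb G (k j))
        (fun u => Quotient.mk (orb G (Fin (k j))) u.1)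
        (fun u v h => Quotient.sound (h : Same G u.1 v.1)) x) ?_
    intro x y hxy
    obtain ⟨u, rfl⟩ := Quotient.exists_rep x
    obtain ⟨v, rfl⟩ := Quotient.exists_rep y
    exact Quotient.sound (Quotient.exact hxy : Same G u.1 v.1)
  infer_instance

/-- highly transitive groups: all the injective templates are trivial -/
theorem triv_of_ht [Infinite B] {G : Subgroup (Equiv.Perm B)} (hG : ¬ NotHT G) {ι : Type}
    {ar : ι → ℕ} (𝔸 : Str ι ar B) (hinv : ∀ l, Invar G (𝔸 l))
    (hinj : ∀ l, ∀ u ∈ 𝔸 l, Function.Injective u) : Triv G 𝔸 := by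
  have hG' : ∀ (m : ℕ) (u v : Fin m → B), Function.Injective u → Function.Injective v →
      Same G u v := by
    intro m u v hu hv
    by_contra h
    exact hG ⟨m, u, v, hu, hv, h⟩
  intro n
  have hs : Function.Injective (fun i : Fin n => Infinite.natEmbedding B i) := fun a b hab =>
    Fin.ext ((Infinite.natEmbedding B).injective hab)
  refine ⟨fun i => Infinite.natEmbedding B i, hs, fun π => hG' _ _ _ (hs.comp π.injective) hs, ?_⟩
  rintro l ⟨u, hu⟩ x hx
  exact (hG' _ _ _ (hinj l u hu) (hs.comp hx)).mem (hinv l) hu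

/-- the arithmetic of the union bound -/
theorem card_bound {p s C N n' M q h kj : ℕ} (hp2 : 2 ≤ p) (hn' : 1 ≤ n') (hM : M ≤ C * n')
    (hM1 : 1 ≤ M) (hq : q ≤ M) (hh : h ≤ M) (hk : kj ≤ M) (hN : (3 + s) * C ^ p ≤ N) (hpN : p ≤ N)
    {c : ℕ} (hc : c ≤ 2 ^ (M * M + s * M ^ p)) : q ^ kj + q ^ h + c ≤ 2 ^ (N * n' ^ N) := by
  have h1 : ∀ e ≤ M, q ^ e ≤ 2 ^ (M * M + s * M ^ p) := by
    intro e he
    calc q ^ e ≤ M ^ e := Nat.pow_le_pow_left hq e
      _ ≤ M ^ M := Nat.pow_le_pow_right hM1 he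
      _ ≤ (2 ^ M) ^ M := Nat.pow_le_pow_left (Nat.lt_two_pow_self).le M
      _ = 2 ^ (M * M) := by rw [← pow_mul]
      _ ≤ _ := Nat.pow_le_pow_right (by norm_num) (Nat.le_add_right _ _)
  have h2 : q ^ kj + q ^ h + c ≤ 2 ^ (2 + (M * M + s * M ^ p)) := by
    have := h1 kj hk
    have := h1 h hh
    have h3 : 2 ^ (2 + (M * M + s * M ^ p)) = 4 * 2 ^ (M * M + s * M ^ p) := by
      rw [pow_add]; norm_num
    omega
  refine h2.trans (Nat.pow_le_pow_right (by norm_num) ?_)
  have h3 : M * M ≤ M ^ p := by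
    calc M * M = M ^ 2 := by ring
      _ ≤ M ^ p := Nat.pow_le_pow_right hM1 hp2
  have h4 : 1 ≤ M ^ p := Nat.one_le_pow _ _ hM1
  have h5 : M ^ p ≤ C ^ p * n' ^ p := by
    rw [← mul_pow]
    exact Nat.pow_le_pow_left hM p
  have h6 : n' ^ p ≤ n' ^ N := Nat.pow_le_pow_right hn' hpN
  calc 2 + (M * M + s * M ^ p) ≤ (3 + s) * M ^ p := by nlinarith
    _ ≤ (3 + s) * (C ^ p * n' ^ p) := Nat.mul_le_mul_left _ h5
    _ = ((3 + s) * C ^ p) * n' ^ p := by ring
    _ ≤ N * n' ^ N := Nat.mul_le_mul hN h6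

theorem law_bound {σ : Type} [Infinite B] [Finite σ] {arB : σ → ℕ} (𝔹 : Str σ arB B)
    (h𝔹 : Homogeneous 𝔹) (horb : ∀ b : B, {x | ∃ g ∈ autGroup 𝔹, g b = x}.Infinite) (r : ℕ) :
    ∃ N : ℕ, 0 < N ∧ ∀ (t : ℕ) (k : Fin t → ℕ) (n n' : ℕ), N ≤ n → (∀ j, n ≤ k j ∧ k j ≤ n') →
      ∀ ε : ℝ, 0 ≤ ε → ε ≤ 1 → ∀ μ : Set (IOmega (autGroup 𝔹) k) → ℝ, IsLaw μ →
        FiniteEnergy ε μ →
        prob μ (fun Θ => ¬ InjDichotomy (autGroup 𝔹) r (irel (autGroup 𝔹) k Θ)) ≤
          t * (2 ^ (N * n' ^ N) * (1 - ε ^ N) ^ (2 ^ (n / N))) := by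
  have hfree := free_of_infinite horb
  set G := autGroup 𝔹 with hGdef
  have hfin : ∀ k, Finite (Orb G (Fin k)) := fun k => hom_finite h𝔹 (Fin k)
  by_cases hNT : NotHT G
  swap
  · refine ⟨1, Nat.one_pos, ?_⟩
    intro t k n n' _ _ ε hε hε1 μ hμ hFE
    have := finite_iomega hfin k
    have := Fintype.ofFinite (IOmega G k)
    have h0 : prob μ (fun Θ => ¬ InjDichotomy G r (irel G k Θ)) ≤ 0 := by
      rw [prob_eq]
      refine le_of_eq (sum_filter_zero (fun R hR => ?_) _)
      apply hR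
      intro ι _ arΓ Γ hr hΓ hΓi s e hs
      left
      apply triv_of_ht hNT
      · rintro (l | l)
        · exact hΓ l
        · exact irel_invar G k _ (e l)
      · rintro (l | l)
        · exact hΓi l
        · exact irel_inj G k _ (e l)
    refine h0.trans ?_
    have h1 : ε ^ 1 ≤ 1 := by simpa using hε1
    have h2 : 0 ≤ 1 - ε ^ 1 := by linarith
    positivity
  have hNT' := hNT
  obtain ⟨m, u, v, hu, hv, huv⟩ := hNT'
  have := Fintype.ofFinite σ
  -- the constants
  set p : ℕ := 2 + Finset.univ.sup arB with hp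
  have hp2 : 2 ≤ p := Nat.le_add_right _ _
  have hpar : ∀ i, arB i ≤ p := fun i =>
    (Finset.le_sup (f := arB) (Finset.mem_univ i)).trans (Nat.le_add_left _ _)
  have hloc : Local G p := hom_local h𝔹 p hp2 hpar
  have := hfin p
  obtain ⟨k0, hpk0, hk0⟩ := exists_large G hloc
  set r' := max r (4 * m) with hr'
  obtain ⟨F, hF1, x0, x1, hβ⟩ := exists_F hfin r' hNT
  have := hfin r'
  have := Fintype.ofFinite (Lam G r')
  set d := Fintype.card (Lam G r') + 1 with hd
  set f := F.card with hf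
  have hf1 : 1 ≤ f := Finset.card_pos.2 ⟨x0, x0.2⟩
  set Q := 2 * ((p + 3) * f) with hQ
  have hQ1 : 1 ≤ Q := by
    have : 1 ≤ (p + 3) * f := Nat.mul_pos (by omega) hf1
    omega
  set C := r' + (k0 + p + 5) * f with hC
  set N := (3 + Fintype.card σ) * C ^ p + p + d + Q + 2 * r' + 2 * Q with hN
  refine ⟨N, by omega, ?_⟩
  intro t k n n' hNn hkn ε hε hε1 μ hμ hFE
  have := finite_iomega hfin k
  have := Fintype.ofFinite (IOmega G k)
  rcases Nat.eq_zero_or_pos t with rfl | ht
  · have h0 : prob μ (fun Θ => ¬ InjDichotomy G r (irel G k Θ)) ≤ 0 := by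
      rw [prob_eq]
      refine le_of_eq (sum_filter_zero (fun R hR => ?_) _)
      apply hR
      intro ι _ arΓ Γ hr hΓ hΓi s e hs
      exact (e ⟨0, hs⟩).elim0
    refine h0.trans ?_
    simp
  have hnn' : n ≤ n' := (hkn ⟨0, ht⟩).1.trans (hkn ⟨0, ht⟩).2
  set h := n / Q with hh
  have hh2 : 2 ≤ h := by
    rw [hh, Nat.le_div_iff_mul_le (by omega)]
    omega
  have hhQ : h * Q ≤ n := Nat.div_mul_le_self n Q
  have hhn : h ≤ n := Nat.div_le_self n Q
  have hhf : r' + h * ((p + 3) * f) ≤ n := by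
    have h1 : 2 * (h * ((p + 3) * f)) ≤ n := by
      calc 2 * (h * ((p + 3) * f)) = h * Q := by rw [hQ]; ring
        _ ≤ n := hhQ
    omega
  set K := n' + k0 + 1 with hK
  set q := K + (p + 3) * h with hq
  set M := r' + q * f with hM
  -- the blocks
  have hEfin : (⋃ s : Lam G r', Set.range s.1.out).Finite :=
    Set.finite_iUnion fun s => Set.finite_range _
  obtain ⟨θ, hθi, hθE, hθ2⟩ := exists_theta hfree F hEfin q
  have hθE' : ∀ (s : Lam G r') (i : Fin r') y, θ y ≠ s.1.out i := by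
    intro s i y h1
    apply hθE y
    rw [h1]
    exact Set.mem_iUnion.2 ⟨s, i, rfl⟩
  have hFO : Finite (Orb G (Fin r' ⊕ (Fin q × F))) := hom_finite h𝔹 _
  have hqpos : 1 ≤ q := by omega
  have hVne : Nonempty (Fin r' ⊕ (Fin q × F)) := ⟨Sum.inr (⟨0, hqpos⟩, x0)⟩
  have hVc : Nat.card (Fin r' ⊕ (Fin q × F)) = M := by
    rw [Nat.card_sum, Nat.card_prod, Nat.card_eq_fintype_card, Nat.card_eq_fintype_card,
      Nat.card_eq_fintype_card, Fintype.card_fin, Fintype.card_fin, Fintype.card_coe]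
  have hqM : q ≤ M := by
    have : q * 1 ≤ q * f := Nat.mul_le_mul_left _ hf1
    omega
  have hMC : M ≤ C * n' := by
    have hn1 : 1 ≤ n' := by omega
    have h1 : q ≤ (k0 + p + 5) * n' := by
      have h2 : (p + 3) * h ≤ (p + 3) * n' := Nat.mul_le_mul_left _ (hhn.trans hnn')
      have h3 : k0 + 1 ≤ (k0 + 1) * n' := Nat.le_mul_of_pos_right _ hn1
      calc q = n' + (k0 + 1) + (p + 3) * h := by rw [hq, hK]; ring
        _ ≤ n' + (k0 + 1) * n' + (p + 3) * n' := by omega
        _ = (k0 + p + 5) * n' := by ring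
    calc M = r' + q * f := hM
      _ ≤ r' * n' + ((k0 + p + 5) * n') * f :=
          Nat.add_le_add (Nat.le_mul_of_pos_right _ hn1) (Nat.mul_le_mul_right _ h1)
      _ = C * n' := by rw [hC]; ring
  have hcO : Nat.card (Orb G (Fin r' ⊕ (Fin q × F))) ≤
      2 ^ (M * M + Fintype.card σ * M ^ p) := by
    have := orb_card_le h𝔹 (Fin r' ⊕ (Fin q × F)) hpar
    rw [hVc] at this
    exact this
  have hone : ∀ j, ∑ R ∈ (Finset.univ : Finset (Finset (IOmega G k))).filter
        (fun R : Finset (IOmega G k) => ¬ Good G p r' h θ (irel G k (R : Set (IOmega G k)) j)),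
          μ (R : Set (IOmega G k)) ≤ 2 ^ (N * n' ^ N) * (1 - ε ^ N) ^ (2 ^ (n / N)) := by
    intro j
    have hkj := hkn j
    have h1 := not_good_bound (d := d) k j hβ hθi hθ2 hε hε1
      (μ := fun R : Finset (IOmega G k) => μ (R : Set (IOmega G k))) (fun R => hμ.1 _) hFE.fe
      hθE' (by omega) (by omega) (hhf.trans hkj.1) (by
        have h5 : q * 1 ≤ q * F.card := Nat.mul_le_mul_left _ hf1
        have := hkj.2
        omega) (by omega)
    rw [hμ.sum, mul_one] at h1
    refine h1.trans ?_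
    have hx0 : 0 ≤ ε ^ N := pow_nonneg hε _
    have hx1 : ε ^ N ≤ 1 := pow_le_one₀ hε hε1
    have hxd : ε ^ d ≤ 1 := pow_le_one₀ hε hε1
    refine mul_le_mul ?_ ?_ (pow_nonneg (by linarith) _) (by positivity)
    · have h2 := card_bound (p := p) (s := Fintype.card σ) (C := C) (N := N) (n' := n') (M := M)
        (q := q) (h := h) (kj := k j) hp2 (by omega) hMC (by omega) hqM (by omega) (by omega)
        (by omega) (by omega) hcO
      exact_mod_cast h2
    · calc (1 - ε ^ d) ^ (2 ^ h) ≤ (1 - ε ^ N) ^ (2 ^ h) := by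
            apply pow_le_pow_left₀ (by linarith)
            have : ε ^ N ≤ ε ^ d := pow_le_pow_of_le_one hε hε1 (by omega)
            linarith
        _ ≤ (1 - ε ^ N) ^ (2 ^ (n / N)) := by
            apply pow_le_pow_of_le_one (by linarith) (by linarith)
            apply Nat.pow_le_pow_right (by norm_num)
            rw [hh]
            exact Nat.div_le_div_left (by omega) (by omega)
  refine le_trans (prob_le hμ.1 (Q := fun R : Finset (IOmega G k) =>
    ¬ ∀ j, Good G p r' h θ (irel G k (R : Set (IOmega G k)) j)) ?_) ?_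
  · intro R hR hgood
    apply hR
    intro ι _ arΓ Γ hr hΓ hΓi s e hs
    by_cases hT : Triv G (expand Γ (fun j => irel G k (R : Set (IOmega G k)) (e j)))
    · exact Or.inl hT
    right
    have hall : ∀ S : Set (Fin r' → B), Invar G S → (∀ u ∈ S, Function.Injective u) →
        PP (expand Γ (fun j => irel G k (R : Set (IOmega G k)) (e j))) S := by
      intro S hS hSi
      refine pp_of_good (p := p) (r := r') (h := h) (q := q) (K := K) (k0 := k0) hloc hk0 hF1
        ⟨x0, x0.2⟩ hθ2 (by omega) (by omega) hh2 (by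
          rw [hq]
          have : (p + 2) * h ≤ (p + 3) * h := Nat.mul_le_mul_right _ (by omega)
          omega) ?_ ?_ ?_ (l0 := Sum.inr ⟨0, hs⟩) (hgood _) hT S hS hSi
      · rintro (l | l)
        · exact hΓ l
        · exact irel_invar G k _ (e l)
      · rintro (l | l)
        · exact hΓi l
        · exact irel_inj G k _ (e l)
      · rintro (l | l)
        · exact Or.inl ((hr l).trans (le_max_left _ _))
        · right
          refine ⟨?_, h, hgood (e l)⟩
          have := (hkn (e l)).2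
          show k (e l) ≤ K
          omega
    have hall' := fun (V : Type) [Finite V] => injMax_of hall V
    refine ⟨fun V _ hV S hS hSi => (hall' V (hV.trans (le_max_left _ _)) S hS hSi).toPPDef, ?_⟩
    exact k3_of_injMax hfree hu hv huv (le_max_right r (4 * m)) (fun V _ => hall' V)
  · calc _ ≤ ∑ R ∈ (Finset.univ : Finset (Fin t)).biUnion (fun j =>
          (Finset.univ : Finset (Finset (IOmega G k))).filter (fun R : Finset (IOmega G k) =>
            ¬ Good G p r' h θ (irel G k (R : Set (IOmega G k)) j))),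
            μ (R : Set (IOmega G k)) := by
          refine Finset.sum_le_sum_of_subset_of_nonneg ?_ fun R _ _ => hμ.1 _
          intro R hR
          obtain ⟨j, hj⟩ := not_forall.1 (Finset.mem_filter.1 hR).2
          exact Finset.mem_biUnion.2 ⟨j, Finset.mem_univ _,
            Finset.mem_filter.2 ⟨Finset.mem_univ _, hj⟩⟩
      _ ≤ ∑ j : Fin t, ∑ R ∈ (Finset.univ : Finset (Finset (IOmega G k))).filter
        (fun R : Finset (IOmega G k) => ¬ Good G p r' h θ (irel G k (R : Set (IOmega G k)) j)),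
          μ (R : Set (IOmega G k)) :=
          sum_biUnion_le' _ _ (fun R : Finset (IOmega G k) => μ (R : Set (IOmega G k)))
            (fun R => hμ.1 _)
      _ ≤ ∑ _j : Fin t, 2 ^ (N * n' ^ N) * (1 - ε ^ N) ^ (2 ^ (n / N)) :=
          Finset.sum_le_sum fun j _ => hone j
      _ = _ := by
          rw [Finset.sum_const, Finset.card_univ, Fintype.card_fin, nsmul_eq_mul]

end Run7.h380.IN
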