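import Pool.Agent.Run7.h380.IN.Det
import Pool.Agent.N455.CS.Uni
import Pool.Agent.N455.CS.Law

/-!
# Random injective relations are good (helper380)
-/

set_option autoImplicit false

namespace Run7.h380.IN

open Finset
open Pool.Agent.W994.AR
open Pool.Agent.N455.CS
open scoped Classical

variable {B : Type}

/-- injective tuples up to the group -/
def iorb (G : Subgroup (Equiv.Perm B)) (k : ℕ) : Setoid {u : Fin k → B // Function.Injective u} :=
  (orb G (Fin k)).comap Subtype.val

/-- the orbits of injective tuples of the lengths `k 0, ..., k (t - 1)` -/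
abbrev IOmega (G : Subgroup (Equiv.Perm B)) {t : ℕ} (k : Fin t → ℕ) : Type :=
  (j : Fin t) × Quotient (iorb G (k j))

/-- the `j`-th relation given by a set of orbits of injective tuples -/
def irel (G : Subgroup (Equiv.Perm B)) {t : ℕ} (k : Fin t → ℕ) (Θ : Set (IOmega G k))
    (j : Fin t) : Set (Fin (k j) → B) :=
  {v | ∃ h : Function.Injective v, (⟨j, Quotient.mk (iorb G (k j)) ⟨v, h⟩⟩ : IOmega G k) ∈ Θ}

theorem irel_inj (G : Subgroup (Equiv.Perm B)) {t : ℕ} (k : Fin t → ℕ) (Θ : Set (IOmega G k))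
    (j : Fin t) : ∀ u ∈ irel G k Θ j, Function.Injective u := fun _ h => h.choose

theorem irel_invar (G : Subgroup (Equiv.Perm B)) {t : ℕ} (k : Fin t → ℕ) (Θ : Set (IOmega G k))
    (j : Fin t) : Invar G (irel G k Θ j) := by
  rintro g hg v ⟨hv, h⟩
  refine ⟨g.injective.comp hv, ?_⟩
  have : (Quotient.mk (iorb G (k j)) ⟨v, hv⟩) =
      Quotient.mk (iorb G (k j)) ⟨fun i => g (v i), g.injective.comp hv⟩ :=
    Quotient.sound (⟨g, hg, fun _ => rfl⟩ : Same G v (fun i => g (v i)))
  rwa [← this]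

theorem Grp.g_flip {V : Type} {h : ℕ} (D : Grp V h) (c : Finset (Fin h)) (x : V) :
    D.g (D.flip c x) = D.g x := by
  rcases hx : D.g x with _ | j
  · rw [D.flip_none hx, hx]
  · by_cases hj : j ∈ c
    · rw [D.flip_mem hx hj, D.pres j x hx]
    · rw [D.flip_not_mem hx hj, hx]

/-- independent trials of the words `flip c ∘ w0` -/
theorem pattern {G : Subgroup (Equiv.Perm B)} {t : ℕ} (k : Fin t → ℕ) (j : Fin t)
    [Fintype (IOmega G k)] {V : Type} {h : ℕ} (D : Grp V h) {w0 : Fin (k j) → V}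
    (hw0i : Function.Injective w0) (hw0 : ∀ x, D.g x ≠ none → ∃ i, w0 i = x)
    {Λ : Type} [Fintype Λ] (T : Λ → V → B) (hTi : ∀ s, Function.Injective (T s))
    (hTm : ∀ s, Moves G D (T s))
    (hsep : ∀ s s', s ≠ s' → ∀ c c', ¬ Same G (T s ∘ D.flip c ∘ w0) (T s' ∘ D.flip c' ∘ w0))
    (b : Λ → Prop) {d : ℕ} (hd : Fintype.card Λ ≤ d) {ε : ℝ} (hε : 0 ≤ ε) (hε1 : ε ≤ 1)
    {μ : Finset (IOmega G k) → ℝ} (hμ0 : ∀ R, 0 ≤ μ R) (hμ : FE ε μ)
    {Q : Finset (IOmega G k) → Prop} [DecidablePred Q]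
    (hQ : ∀ R, Q R → ∀ c : Finset (Fin h), ¬ ∀ s,
      (T s ∘ D.flip c ∘ w0 ∈ irel G k (R : Set (IOmega G k)) j ↔ b s)) :
    ∑ R ∈ (Finset.univ : Finset (Finset (IOmega G k))).filter Q, μ R ≤
      (1 - ε ^ d) ^ (2 ^ h) * ∑ R, μ R := by
  have hinj : ∀ c s, Function.Injective (T s ∘ D.flip c ∘ w0) := fun c s =>
    (hTi s).comp ((D.flip_inj c).comp hw0i)
  let cls : Finset (Fin h) → Λ → IOmega G k := fun c s =>
    ⟨j, Quotient.mk (iorb G (k j)) ⟨T s ∘ D.flip c ∘ w0, hinj c s⟩⟩
  have hcls : ∀ c s c' s', cls c s = cls c' s' → c = c' ∧ s = s' := by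
    intro c s c' s' h1
    have h2 := eq_of_heq (Sigma.mk.inj h1).2
    have h3 : Same G (T s ∘ D.flip c ∘ w0) (T s' ∘ D.flip c' ∘ w0) := Quotient.exact h2
    by_cases hs : s = s'
    · subst hs
      exact ⟨word_ne D (hTm s) hw0 h3, rfl⟩
    · exact absurd h3 (hsep s s' hs c c')
  have hmem : ∀ (R : Finset (IOmega G k)) c s,
      T s ∘ D.flip c ∘ w0 ∈ irel G k (R : Set (IOmega G k)) j ↔ cls c s ∈ R := by
    intro R c s
    constructor
    · rintro ⟨_, h1⟩
      exact h1
    · intro h1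
      exact ⟨hinj c s, h1⟩
  let W : Finset (Finset (Fin h)) := Finset.univ
  have hWcard : W.card = 2 ^ h := by
    simp [W]
  let D' : Finset (Fin h) → Finset (IOmega G k) := fun c => Finset.univ.image (cls c)
  let A' : Finset (Fin h) → Finset (IOmega G k) := fun c => (Finset.univ.filter b).image (cls c)
  have hcount : ∑ R ∈ (Finset.univ : Finset (Finset (IOmega G k))).filter
      (fun R => Avoid W D' A' R), μ R ≤ (1 - ε ^ d) ^ (2 ^ h) * ∑ R, μ R := by
    rw [← hWcard]
    apply wcount hε hε1 hμ0 hμ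
    · intro c _
      refine Finset.card_image_le.trans ?_
      rw [Finset.card_univ]
      exact hd
    · intro c _ c' _ hne
      rw [Finset.disjoint_left]
      intro x hx hx'
      obtain ⟨s, _, h3⟩ := Finset.mem_image.1 hx
      obtain ⟨s', _, h4⟩ := Finset.mem_image.1 hx'
      exact hne (hcls _ _ _ _ (h3.trans h4.symm)).1
  refine le_trans (Finset.sum_le_sum_of_subset_of_nonneg ?_ fun R _ _ => hμ0 R) hcount
  intro R hR
  rw [Finset.mem_filter] at hR ⊢
  refine ⟨Finset.mem_univ _, ?_⟩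
  intro c _ hMat
  apply hQ R hR.2 c
  intro s
  rw [hmem, hMat _ (Finset.mem_image_of_mem _ (Finset.mem_univ s))]
  constructor
  · intro h1
    obtain ⟨s', hs', h3⟩ := Finset.mem_image.1 h1
    rw [← (hcls _ _ _ _ h3).2]
    exact (Finset.mem_filter.1 hs').2
  · intro h1
    exact Finset.mem_image_of_mem _ (Finset.mem_filter.2 ⟨Finset.mem_univ _, h1⟩)

/-- a system without transpositions -/
def simpleSys {q h : ℕ} {F : Type} (δ : Fin h → Fin q) (hδ : Function.Injective δ) (x0 : F) :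
    Sys q h F where
  δ := δ
  δ_inj := hδ
  X := fun _ => ∅
  dis := fun _ _ _ => Finset.disjoint_empty_left _
  sep := fun _ _ => Finset.notMem_empty _
  a := fun j => (δ j, x0)
  b := fun j => (δ j, x0)
  mem := fun _ h => absurd h (by simp)

theorem simple_flip {q h r : ℕ} {F : Type} (δ : Fin h → Fin q) (hδ : Function.Injective δ)
    (x0 x1 : F) (c : Finset (Fin h)) (y : Fin q × F) :
    ∃ x' : F, ((simpleSys δ hδ x0).toGrp (r := r) x0 x1).flip c (Sum.inr y) =
      Sum.inr (y.1, x') := by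
  set D := (simpleSys δ hδ x0).toGrp (r := r) x0 x1 with hD
  rcases hx : D.g (Sum.inr y) with _ | j
  · exact ⟨y.2, D.flip_none hx⟩
  · by_cases hj : j ∈ c
    · rw [D.flip_mem hx hj]
      have h1 := ((simpleSys δ hδ x0).grp_iff (r := r) y j).1 hx
      have h2 : y.1 = δ j := by
        rcases h1 with h1 | h1
        · exact h1
        · exact absurd h1 (Finset.notMem_empty _)
      refine ⟨(Equiv.swap ((δ j, x0) : Fin q × F) (δ j, x1) y).2, ?_⟩
      show Sum.inr (if y.1 = δ j then Equiv.swap ((δ j, x0) : Fin q × F) (δ j, x1) y else _) = _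
      rw [if_pos h2]
      congr 1
      refine Prod.ext ?_ rfl
      rw [swap_block _ _ _ _ h2, h2]
    · exact ⟨y.2, D.flip_not_mem hx hj⟩

theorem lam_ext {G : Subgroup (Equiv.Perm B)} {r : ℕ} {s s' : Lam G r}
    (h : Same G s.1.out s'.1.out) : s = s' := by
  apply Subtype.ext
  have h2 : (Quotient.mk (orb G (Fin r)) s.1.out) = Quotient.mk (orb G (Fin r)) s'.1.out :=
    Quotient.sound h
  rwa [Quotient.out_eq, Quotient.out_eq] at h2

/-- change of the decidability instance -/
theorem swap_inst {G : Subgroup (Equiv.Perm B)} {F : Type} {i1 i2 : DecidableEq F} {x0 x1 : F}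
    {f : F → B} (h : ¬ Same G (f ∘ (@Equiv.swap F i1 x0 x1)) f) :
    ¬ Same G (f ∘ (@Equiv.swap F i2 x0 x1)) f := by
  rwa [Subsingleton.elim i2 i1]

section events

variable {G : Subgroup (Equiv.Perm B)} {t : ℕ} (k : Fin t → ℕ) (j : Fin t)
  [Fintype (IOmega G k)] {p r h q d : ℕ} {F : Finset B} {x0 x1 : F}
  (hβ : ¬ Same G ((fun x : F => (x : B)) ∘ Equiv.swap x0 x1) (fun x : F => (x : B)))
  {θ : Fin q × F → B} (hθi : Function.Injective θ)
  (hθ2 : ∀ l, Same G (fun x : F => θ (l, x)) (fun x : F => (x : B)))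
  {ε : ℝ} (hε : 0 ≤ ε) (hε1 : ε ≤ 1) {μ : Finset (IOmega G k) → ℝ} (hμ0 : ∀ R, 0 ≤ μ R)
  (hμ : FE ε μ)

include hβ hθi hθ2 hε hε1 hμ0 hμ

theorem event1 (hd : 1 ≤ d) (hk : h * F.card ≤ k j)
    (δ : Fin (k j) → Fin q) (hδ : Function.Injective δ) :
    ∑ R ∈ (Finset.univ : Finset (Finset (IOmega G k))).filter
        (fun R : Finset (IOmega G k) => ¬ ∃ w : Fin (k j) → Fin (k j) × F,
          Function.Injective w ∧
          (fun i => θ (δ (w i).1, (w i).2)) ∈ irel G k (R : Set (IOmega G k)) j), μ R ≤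
      (1 - ε ^ d) ^ (2 ^ h) * ∑ R, μ R := by
  have hFpos : 1 ≤ F.card := Finset.card_pos.2 ⟨x0, x0.2⟩
  have hhk : h ≤ k j := by nlinarith
  let δ' : Fin h → Fin q := δ ∘ Fin.castLE hhk
  have hδ' : Function.Injective δ' := hδ.comp (Fin.castLE_injective hhk)
  let D := (simpleSys δ' hδ' x0).toGrp (r := 0) x0 x1
  -- the base word
  obtain ⟨w1, hw1, hw1'⟩ := exists_word (U := Fin (k j) × F) (k := k j)
    ((Finset.univ.image (Fin.castLE hhk)) ×ˢ (Finset.univ : Finset F)) (by
      rw [Finset.card_product, Finset.card_univ, Fintype.card_coe]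
      refine le_trans (Nat.mul_le_mul_right _ Finset.card_image_le) ?_
      rw [Finset.card_univ, Fintype.card_fin]
      exact hk) (by
      rw [Fintype.card_prod, Fintype.card_fin, Fintype.card_coe]
      nlinarith)
  let w0 : Fin (k j) → Fin 0 ⊕ (Fin q × F) := fun i => Sum.inr (δ (w1 i).1, (w1 i).2)
  have hw0i : Function.Injective w0 := by
    intro a b hab
    have h1 := Prod.mk.inj (Sum.inr_injective hab)
    exact hw1 (Prod.ext (hδ h1.1) h1.2)
  have hw0 : ∀ x, D.g x ≠ none → ∃ i, w0 i = x := by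
    rintro (i | y) hx
    · exact i.elim0
    · obtain ⟨j', hj'⟩ := Option.ne_none_iff_exists'.1 hx
      have h1 := ((simpleSys δ' hδ' x0).grp_iff (r := 0) y j').1 hj'
      have h2 : y.1 = δ' j' := by
        rcases h1 with h1 | h1
        · exact h1
        · exact absurd h1 (Finset.notMem_empty _)
      obtain ⟨i, hi⟩ := hw1' (Fin.castLE hhk j', y.2) (by
        rw [Finset.mem_product]
        exact ⟨Finset.mem_image_of_mem _ (Finset.mem_univ _), Finset.mem_univ _⟩)
      refine ⟨i, ?_⟩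
      show Sum.inr (δ (w1 i).1, (w1 i).2) = _
      rw [hi]
      congr 1
      exact Prod.ext h2.symm rfl
  let T : Unit → Fin 0 ⊕ (Fin q × F) → B := fun _ => Sum.elim (fun i => i.elim0) θ
  have hTi : ∀ s, Function.Injective (T s) := by
    rintro s (i | y) (i' | y') hxy
    · exact i.elim0
    · exact i.elim0
    · exact i'.elim0
    · exact congrArg Sum.inr (hθi hxy)
  have hTm : ∀ s, Moves G D (T s) := fun s => moves_of_blocks _ (swap_inst hβ) hθ2
  refine pattern (d := d) k j D hw0i hw0 T hTi hTm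
    (fun s s' hss => absurd (Subsingleton.elim s s') hss) (fun _ => True) (by simpa using hd)
    hε hε1 hμ0 hμ ?_
  intro R hR c hc
  apply hR
  have h2 := (hc ()).2 trivial
  choose x' hx' using fun i => simple_flip (r := 0) δ' hδ' x0 x1 c (δ (w1 i).1, (w1 i).2)
  refine ⟨fun i => ((w1 i).1, x' i), ?_, ?_⟩
  · intro a b hab
    have h3 := Prod.mk.inj hab
    apply hw0i
    apply D.flip_inj c
    show D.flip c (Sum.inr (δ (w1 a).1, (w1 a).2)) = D.flip c (Sum.inr (δ (w1 b).1, (w1 b).2))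
    have e1 := hx' a
    have e2 := hx' b
    simp only at e1 e2
    show ((simpleSys δ' hδ' x0).toGrp (r := 0) x0 x1).flip c _ =
      ((simpleSys δ' hδ' x0).toGrp (r := 0) x0 x1).flip c _
    rw [e1, e2, h3.1, h3.2]
  · have e : (T () ∘ D.flip c ∘ w0) = fun i => θ (δ (w1 i).1, x' i) := by
      funext i
      show T () (((simpleSys δ' hδ' x0).toGrp (r := 0) x0 x1).flip c
        (Sum.inr (δ (w1 i).1, (w1 i).2))) = _
      rw [hx' i]
      rfl
    rw [e] at h2
    exact h2

theorem event3 [Fintype (Lam G r)] (hθE : ∀ (s : Lam G r) (i : Fin r) y, θ y ≠ s.1.out i)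
    (hd : Fintype.card (Lam G r) ≤ d) (hk : r + h * ((p + 3) * F.card) ≤ k j)
    (hkq : k j ≤ r + q * F.card) (δ : Fin h → Fin q) (hδ : Function.Injective δ) :
    ∑ R ∈ (Finset.univ : Finset (Finset (IOmega G k))).filter
        (fun R : Finset (IOmega G k) => ¬ ∃ w : Fin (k j) → Fin r ⊕ (Fin q × F),
          (∀ i, ∃ l, w l = Sum.inl i) ∧ (∀ j x, ∃ l, w l = Sum.inr (δ j, x)) ∧
          ∀ s : Lam G r, tgt θ s ∘ w ∈ irel G k (R : Set (IOmega G k)) j), μ R ≤
      (1 - ε ^ d) ^ (2 ^ h) * ∑ R, μ R := by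
  let S := simpleSys δ hδ x0
  let D := S.toGrp (r := r) x0 x1
  obtain ⟨w0, hw0i, hw0l, hw0⟩ := S.exists_word (r := r) x0 x1 (p := p) (k := k j)
    (fun _ => by simp [S, simpleSys]) (by rw [Fintype.card_coe]; exact hk)
    (by rw [Fintype.card_coe]; exact hkq)
  have hTi : ∀ s : Lam G r, Function.Injective (tgt θ s) := by
    intro s
    exact s.2.sumElim hθi (fun i y h => hθE s i y h.symm)
  have hTm : ∀ s : Lam G r, Moves G D (tgt θ s) := fun s =>
    moves_of_blocks _ (swap_inst hβ) hθ2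
  refine pattern (d := d) k j D hw0i hw0 (fun s : Lam G r => tgt θ s) hTi hTm
    (fun s s' hss c c' hsame => hss (lam_ext (word_same D (q := tgt θ s) (q' := tgt θ s')
      (fun i : Fin r => Sum.inl i) (fun _ => rfl) hw0l hsame))) (fun _ => True) hd hε hε1 hμ0 hμ ?_
  intro R hR c hc
  refine hR ⟨D.flip c ∘ w0, ?_, ?_, fun s => (hc s).2 trivial⟩
  · intro i
    obtain ⟨l, hl⟩ := hw0l i
    refine ⟨l, ?_⟩
    simp only [Function.comp, hl]
    exact D.flip_none rfl
  · intro j' x
    have h2 : D.g (Sum.inr (δ j', x)) = some j' := (S.grp_iff (r := r) _ j').2 (Or.inl rfl)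
    obtain ⟨l, hl⟩ := hw0 (D.flip c (Sum.inr (δ j', x))) (by
      have h3 := D.g_flip c (Sum.inr (δ j', x))
      intro h4
      rw [h3, h2] at h4
      exact absurd h4 (by simp))
    refine ⟨l, ?_⟩
    simp only [Function.comp, hl]
    exact D.flip_flip c _

theorem event2 [Fintype (Lam G r)] (hθE : ∀ (s : Lam G r) (i : Fin r) y, θ y ≠ s.1.out i)
    (hd : Fintype.card (Lam G r) ≤ d) (hk : r + h * ((p + 3) * F.card) ≤ k j)
    (hkq : k j ≤ r + q * F.card) (hq : (p + 3) * h ≤ q)
    (v : Fin r ⊕ (Fin q × F) → B) (hv : Function.Injective v)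
    (hnL : ¬ ∃ L : Finset (Fin q), L.card ≤ (p + 2) * h ∧ NoWit G p (fun y => v (Sum.inr y)) L) :
    ∑ R ∈ (Finset.univ : Finset (Finset (IOmega G k))).filter
        (fun R : Finset (IOmega G k) => ¬ ∃ w : Fin (k j) → Fin r ⊕ (Fin q × F),
          (∀ s : Lam G r, ¬ Same G s.1.out (fun i => v (Sum.inl i)) →
            tgt θ s ∘ w ∈ irel G k (R : Set (IOmega G k)) j) ∧
          v ∘ w ∉ irel G k (R : Set (IOmega G k)) j), μ R ≤
      (1 - ε ^ d) ^ (2 ^ h) * ∑ R, μ R := by
  rcases greedy G p (fun y => v (Sum.inr y)) h with ⟨X, hXc, hXd, hXw⟩ | hL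
  swap
  · exact absurd hL hnL
  -- blocks outside of the `X j`
  have hLc : ((Finset.univ : Finset (Fin h)).biUnion X).card ≤ (p + 2) * h := by
    refine Finset.card_biUnion_le.trans ?_
    refine (Finset.sum_le_sum fun j _ => hXc j).trans ?_
    rw [Finset.sum_const, Finset.card_univ, Fintype.card_fin, smul_eq_mul, mul_comm]
  obtain ⟨T', hT', hT'c⟩ := Finset.exists_subset_card_eq
    (s := ((Finset.univ : Finset (Fin h)).biUnion X)ᶜ) (n := h) (by
      rw [Finset.card_compl, Fintype.card_fin]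
      have : (p + 3) * h = (p + 2) * h + h := by ring
      omega)
  let e := (T'.equivFinOfCardEq hT'c).symm
  have hesep : ∀ i j', (e i : Fin q) ∉ X j' := by
    intro i j' h1
    exact Finset.mem_compl.1 (hT' (e i).2) (Finset.mem_biUnion.2 ⟨j', Finset.mem_univ _, h1⟩)
  choose a b ha hb dd hdX hdne using hXw
  let S : Sys q h F :=
    { δ := fun i => e i
      δ_inj := fun i j hij => e.injective (Subtype.ext hij)
      X := X
      dis := hXd
      sep := hesep
      a := a
      b := b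
      mem := fun j _ => ⟨ha j, hb j⟩ }
  let D := S.toGrp (r := r) x0 x1
  obtain ⟨w0, hw0i, hw0l, hw0⟩ := S.exists_word (r := r) x0 x1 (p := p) (k := k j)
    hXc (by rw [Fintype.card_coe]; exact hk) (by rw [Fintype.card_coe]; exact hkq)
  let T : Lam G r → Fin r ⊕ (Fin q × F) → B := fun s =>
    if Same G s.1.out (fun i => v (Sum.inl i)) then v else tgt θ s
  have hTi : ∀ s : Lam G r, Function.Injective (T s) := by
    intro s
    simp only [T]
    split_ifs
    · exact hv
    · exact s.2.sumElim hθi (fun i y h => hθE s i y h.symm)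
  have hTm : ∀ s : Lam G r, Moves G D (T s) := by
    intro s
    simp only [T]
    split_ifs
    · exact moves_of_wit (p := p) S x0 x1 (fun j => ⟨dd j, hdX j, hdne j⟩)
    · exact moves_of_blocks _ (swap_inst hβ) hθ2
  have hTl : ∀ s : Lam G r, Same G (T s ∘ Sum.inl) s.1.out := by
    intro s
    simp only [T]
    split_ifs with h1
    · exact h1.symm
    · exact Same.refl G _
  refine pattern (d := d) k j D hw0i hw0 T hTi hTm
    (fun s s' hss c c' hsame => hss (lam_ext (((hTl s).symm.trans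
      (word_same D (q := T s) (q' := T s') (fun i : Fin r => Sum.inl i) (fun _ => rfl)
        hw0l hsame)).trans (hTl s'))))
    (fun s => ¬ Same G s.1.out (fun i => v (Sum.inl i))) hd hε hε1 hμ0 hμ ?_
  intro R hR c hc
  refine hR ⟨D.flip c ∘ w0, ?_, ?_⟩
  · intro s hs
    have h2 := (hc s).2 hs
    simp only [T, if_neg hs] at h2
    exact h2
  · -- the class of `v ∘ inl`
    set o : Orb G (Fin r) := Quotient.mk (orb G (Fin r)) (fun i => v (Sum.inl i)) with ho
    have h2 : Same G o.out (fun i => v (Sum.inl i)) := Quotient.exact (o.out_eq.trans ho)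
    have hvl : Function.Injective (fun i : Fin r => v (Sum.inl i)) := hv.comp Sum.inl_injective
    let s : Lam G r := ⟨o, same_inj h2.symm hvl⟩
    intro h3
    have h4 := hc s
    simp only [T] at h4
    rw [if_pos h2] at h4
    exact (h4.1 h3) h2

end events

end Run7.h380.IN
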