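import Pool.Agent.Run7.h380.IN.Flip

/-!
# Trivial templates, symmetric tuples (helper380)
-/

set_option autoImplicit false

namespace Run7.h380.IN

open Finset
open Pool.Agent.W994.AR
open scoped Classical

variable {B : Type}

/-- There are arbitrarily large totally symmetric finite sets all of whose injective tuples belong
to all the nonempty relations. -/
def Triv (G : Subgroup (Equiv.Perm B)) {ι : Type} {ar : ι → ℕ} (𝔸 : Str ι ar B) : Prop :=
  ∀ n : ℕ, ∃ s : Fin n → B, Function.Injective s ∧ SymT G s ∧ ∀ l, (𝔸 l).Nonempty →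
    ∀ x : Fin (ar l) → Fin n, Function.Injective x → s ∘ x ∈ 𝔸 l

/-- the constraint satisfaction problem of a trivial template -/
theorem triv_csp {G : Subgroup (Equiv.Perm B)} {ι : Type} {ar : ι → ℕ} {𝔸 : Str ι ar B}
    (h : Triv G 𝔸) (hinj : ∀ l, ∀ u ∈ 𝔸 l, Function.Injective u) (X : Type) [Finite X]
    (𝕏 : Str ι ar X) :
    (∃ f : X → B, ∀ i, ∀ v ∈ 𝕏 i, (fun j => f (v j)) ∈ 𝔸 i) ↔
      ∀ i, ∀ v ∈ 𝕏 i, Function.Injective v ∧ (𝔸 i).Nonempty := by
  constructor
  · rintro ⟨f, hf⟩ i v hv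
    refine ⟨?_, ⟨_, hf i v hv⟩⟩
    have h1 := hinj i _ (hf i v hv)
    intro a b hab
    exact h1 (congrArg f hab)
  · intro hX
    obtain ⟨n, ⟨e⟩⟩ := Finite.exists_equiv_fin X
    obtain ⟨s, _, _, hs⟩ := h n
    refine ⟨fun x => s (e x), fun i v hv => ?_⟩
    obtain ⟨h1, h2⟩ := hX i v hv
    exact hs i h2 (e ∘ v) (e.injective.comp h1)

/-- no template is trivial if the group preserves a tournament, for instance a linear order -/
theorem not_triv_of_order {G : Subgroup (Equiv.Perm B)} {ι : Type} {ar : ι → ℕ} {𝔸 : Str ι ar B}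
    (L : B → B → Prop) (hL : ∀ x y, x ≠ y → (L x y ↔ ¬ L y x))
    (hG : ∀ g ∈ G, ∀ x y, L x y ↔ L (g x) (g y)) : ¬ Triv G 𝔸 := by
  intro h
  obtain ⟨s, hs, hsym, _⟩ := h 2
  obtain ⟨g, hg, hgs⟩ := hsym (Equiv.swap 0 1)
  have h0 := hgs 0
  have h1 := hgs 1
  simp only [Function.comp, Equiv.swap_apply_left, Equiv.swap_apply_right] at h0 h1
  have h2 := hG g hg (s 0) (s 1)
  rw [h0, h1] at h2
  have hne : s 0 ≠ s 1 := fun h => by
    have := hs h
    exact absurd this (by decide)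
  have h3 := hL _ _ hne
  tauto

/-- `s` is symmetric, injective and contains the type `ζ` of tuples of length `p` -/
def Cont (G : Subgroup (Equiv.Perm B)) (p : ℕ) (ζ : Orb G (Fin p)) (n : ℕ) : Prop :=
  ∃ s : Fin n → B, Function.Injective s ∧ SymT G s ∧ ∃ x : Fin p → Fin n, Function.Injective x ∧
    Quotient.mk (orb G (Fin p)) (s ∘ x) = ζ

theorem SymT.comp {G : Subgroup (Equiv.Perm B)} {U U' : Type} [Finite U'] {v : U → B}
    (hv : SymT G v) {x : U' → U} (hx : Function.Injective x) : SymT G (v ∘ x) := by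
  intro π
  obtain ⟨m, ⟨e⟩⟩ := Finite.exists_equiv_fin U'
  have h1 := hv.same (x := x ∘ π ∘ e.symm) (y := x ∘ e.symm)
    (hx.comp (π.injective.comp e.symm.injective)) (hx.comp e.symm.injective)
  have h2 := h1.comp e
  have e1 : (v ∘ (x ∘ π ∘ e.symm)) ∘ e = (v ∘ x) ∘ π := by
    funext i; simp
  have e2 : (v ∘ (x ∘ e.symm)) ∘ e = v ∘ x := by
    funext i; simp
  rwa [e1, e2] at h2

theorem Cont.mono {G : Subgroup (Equiv.Perm B)} {p : ℕ} {ζ : Orb G (Fin p)} {n n' : ℕ}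
    (hp : p ≤ n) (hn : n ≤ n') (h : Cont G p ζ n') : Cont G p ζ n := by
  obtain ⟨s, hs, hsym, x, hx, rfl⟩ := h
  refine ⟨s ∘ Fin.castLE hn, hs.comp (Fin.castLE_injective hn),
    hsym.comp (Fin.castLE_injective hn), Fin.castLE hp, Fin.castLE_injective hp, ?_⟩
  apply Quotient.sound
  exact hsym.same (x := Fin.castLE hn ∘ Fin.castLE hp)
    ((Fin.castLE_injective hn).comp (Fin.castLE_injective hp)) hx

/-- locality for symmetric tuples -/
theorem same_of_sym {G : Subgroup (Equiv.Perm B)} {p : ℕ} (hloc : Local G p) {U U' : Type}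
    {s : U → B} {v : U' → B} (hs : SymT G s) (hv : SymT G v)
    {x0 : Fin p → U} {y0 : Fin p → U'} (hx0 : Function.Injective x0) (hy0 : Function.Injective y0)
    (h0 : Same G (s ∘ x0) (v ∘ y0)) {a : ℕ} {x : Fin a → U} {y : Fin a → U'}
    (hx : Function.Injective x) (hy : Function.Injective y) : Same G (s ∘ x) (v ∘ y) := by
  rcases Nat.eq_zero_or_pos a with rfl | ha
  · exact ⟨1, G.one_mem, fun i => i.elim0⟩
  have : Nonempty (Fin a) := ⟨⟨0, ha⟩⟩
  apply hloc
  intro t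
  -- factor `t`
  set R := (Finset.univ : Finset (Fin p)).image t with hR
  have hRc : R.card ≤ p := by
    refine Finset.card_image_le.trans ?_
    simp
  let e := R.equivFin
  let t' : Fin p → Fin R.card := fun i => e ⟨t i, Finset.mem_image_of_mem _ (Finset.mem_univ i)⟩
  let u : Fin R.card → Fin a := fun i => (e.symm i : Fin a)
  have hu : Function.Injective u := fun i j hij => e.symm.injective (Subtype.ext hij)
  have htu : t = u ∘ t' := by
    funext i
    simp [u, t']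
  have h1 : Same G (s ∘ x ∘ u) (s ∘ x0 ∘ Fin.castLE hRc) :=
    hs.same (hx.comp hu) (hx0.comp (Fin.castLE_injective hRc))
  have h2 : Same G (v ∘ y0 ∘ Fin.castLE hRc) (v ∘ y ∘ u) :=
    hv.same (hy0.comp (Fin.castLE_injective hRc)) (hy.comp hu)
  have h3 : Same G (s ∘ x0 ∘ Fin.castLE hRc) (v ∘ y0 ∘ Fin.castLE hRc) :=
    h0.comp (Fin.castLE hRc)
  have h4 := ((h1.trans h3).trans h2).comp t'
  have e1 : (s ∘ x ∘ u) ∘ t' = (s ∘ x) ∘ t := by rw [htu]; rfl
  have e2 : (v ∘ y ∘ u) ∘ t' = (v ∘ y) ∘ t := by rw [htu]; rfl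
  rwa [e1, e2] at h4

/-- A large symmetric tuple that meets all the nonempty relations makes the template trivial. -/
theorem exists_large (G : Subgroup (Equiv.Perm B)) {p : ℕ} (hloc : Local G p)
    [hfin : Finite (Orb G (Fin p))] : ∃ k0 : ℕ, p ≤ k0 ∧
      ∀ {ι : Type} [Finite ι] {ar : ι → ℕ} (𝔸 : Str ι ar B), (∀ l, Invar G (𝔸 l)) →
      ∀ (n : ℕ) (v : Fin n → B), k0 ≤ n → Function.Injective v → SymT G v →
        (∀ l, (𝔸 l).Nonempty → ∃ x : Fin (ar l) → Fin n, Function.Injective x ∧ v ∘ x ∈ 𝔸 l) →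
        Triv G 𝔸 := by
  have h1 : ∀ ζ : Orb G (Fin p), ∃ b : ℕ, p ≤ b ∧ ((∀ n, p ≤ n → Cont G p ζ n) ∨ ¬ Cont G p ζ b) := by
    intro ζ
    by_cases h : ∀ n, p ≤ n → Cont G p ζ n
    · exact ⟨p, le_rfl, Or.inl h⟩
    · push Not at h
      obtain ⟨b, hb, hb'⟩ := h
      exact ⟨b, hb, Or.inr hb'⟩
  choose b hb hb' using h1
  have := Fintype.ofFinite (Orb G (Fin p))
  refine ⟨max p (Finset.univ.sup b), le_max_left _ _, ?_⟩
  intro ι _ ar 𝔸 hinv n v hn hv hsym hmeet n'
  have hpn : p ≤ n := (le_max_left _ _).trans hn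
  set ζ : Orb G (Fin p) := Quotient.mk (orb G (Fin p)) (v ∘ Fin.castLE hpn) with hζ
  have hC : Cont G p ζ n := ⟨v, hv, hsym, Fin.castLE hpn, Fin.castLE_injective hpn, rfl⟩
  have hall : ∀ n, p ≤ n → Cont G p ζ n := by
    rcases hb' ζ with h | h
    · exact h
    · exfalso
      exact h (hC.mono (hb ζ) (((Finset.le_sup (f := b) (Finset.mem_univ ζ)).trans
        (le_max_right _ _)).trans hn))
  obtain ⟨s, hs, hssym, x0, hx0, h0⟩ := hall (max p n') (le_max_left _ _)
  have h0' : Same G (s ∘ x0) (v ∘ Fin.castLE hpn) := Quotient.exact h0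
  refine ⟨s ∘ Fin.castLE (le_max_right p n'), hs.comp (Fin.castLE_injective _),
    hssym.comp (Fin.castLE_injective _), ?_⟩
  intro l hl x hx
  obtain ⟨y, hy, hyl⟩ := hmeet l hl
  have h2 := same_of_sym hloc hssym hsym hx0 (Fin.castLE_injective hpn) h0'
    (x := Fin.castLE (le_max_right p n') ∘ x) (y := y)
    ((Fin.castLE_injective _).comp hx) hy
  exact h2.symm.mem (hinv l) hyl

end Run7.h380.IN
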