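import Pool.Agent.Run7.h380.IN.Greedy

/-!
# Blocks of a fixed type (helper380)
-/

set_option autoImplicit false

namespace Run7.h380.IN

open Finset
open Pool.Agent.W994.AR
open scoped Classical Pointwise

variable {B : Type}

/-- Every tuple can be moved away from every finite set. -/
def Free (G : Subgroup (Equiv.Perm B)) : Prop :=
  ∀ F E : Set B, F.Finite → E.Finite → ∃ g ∈ G, ∀ x ∈ F, g x ∉ E

/-- some two injective tuples of the same length are not in the same orbit -/
def NotHT (G : Subgroup (Equiv.Perm B)) : Prop :=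
  ∃ (m : ℕ) (u v : Fin m → B), Function.Injective u ∧ Function.Injective v ∧ ¬ Same G u v

theorem same_inj {G : Subgroup (Equiv.Perm B)} {V : Type} {u v : V → B} (h : Same G u v)
    (hu : Function.Injective u) : Function.Injective v := by
  obtain ⟨g, _, hg⟩ := h
  intro i j hij
  rw [← hg i, ← hg j] at hij
  exact hu (g.injective hij)

/-- a finite set that contains all the short injective types and is not symmetric -/
theorem exists_F {G : Subgroup (Equiv.Perm B)} (hfin : ∀ k, Finite (Orb G (Fin k))) (r : ℕ)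
    (hnt : NotHT G) : ∃ F : Finset B,
      (∀ a ≤ r, ∀ γ : Fin a → B, ∃ x : Fin a → F, Same G (fun i => (x i : B)) γ) ∧
      ∃ x0 x1 : F, ¬ Same G ((fun x : F => (x : B)) ∘ Equiv.swap x0 x1) (fun x : F => (x : B)) := by
  obtain ⟨m, u, v, hu, hv, hne⟩ := hnt
  have hft : ∀ k, Nonempty (Fintype (Orb G (Fin k))) := fun k => by
    have := hfin k
    exact ⟨Fintype.ofFinite _⟩
  let ft : ∀ k, Fintype (Orb G (Fin k)) := fun k => Classical.choice (hft k)
  let F : Finset B := (Finset.univ.image u ∪ Finset.univ.image v) ∪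
    (Finset.range (r + 1)).biUnion (fun a => (@Finset.univ (Orb G (Fin a)) (ft a)).biUnion
      (fun o => Finset.univ.image o.out))
  have hF1 : ∀ i, u i ∈ F := fun i => Finset.mem_union_left _ (Finset.mem_union_left _
    (Finset.mem_image_of_mem _ (Finset.mem_univ i)))
  have hF2 : ∀ i, v i ∈ F := fun i => Finset.mem_union_left _ (Finset.mem_union_right _
    (Finset.mem_image_of_mem _ (Finset.mem_univ i)))
  refine ⟨F, ?_, ?_⟩
  · intro a ha γ
    set o : Orb G (Fin a) := Quotient.mk (orb G (Fin a)) γ with ho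
    refine ⟨fun i => ⟨o.out i, ?_⟩, ?_⟩
    · apply Finset.mem_union_right
      rw [Finset.mem_biUnion]
      refine ⟨a, Finset.mem_range.2 (Nat.lt_succ_of_le ha), ?_⟩
      rw [Finset.mem_biUnion]
      exact ⟨o, @Finset.mem_univ _ (ft a) o, Finset.mem_image_of_mem _ (Finset.mem_univ i)⟩
    · exact Quotient.exact (o.out_eq.trans ho)
  · by_contra hcon
    push Not at hcon
    have hsym : SymT G (fun x : F => (x : B)) := symT_of_swap hcon
    apply hne
    have := hsym.same (x := fun i => (⟨u i, hF1 i⟩ : F)) (y := fun i => (⟨v i, hF2 i⟩ : F))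
      (fun i j hij => hu (congrArg Subtype.val hij)) (fun i j hij => hv (congrArg Subtype.val hij))
    exact this

/-- disjoint blocks of the type of `F`, outside of `E` -/
theorem exists_theta {G : Subgroup (Equiv.Perm B)} (hG : Free G) (F : Finset B) {E : Set B}
    (hE : E.Finite) (q : ℕ) : ∃ θ : Fin q × F → B, Function.Injective θ ∧ (∀ y, θ y ∉ E) ∧
      ∀ l, Same G (fun x : F => θ (l, x)) (fun x : F => (x : B)) := by
  have key : ∃ g : Fin q → Equiv.Perm B, (∀ l, g l ∈ G) ∧ (∀ l, ∀ x ∈ F, g l x ∉ E) ∧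
      ∀ l l', l ≠ l' → ∀ x ∈ F, ∀ x' ∈ F, g l x ≠ g l' x' := by
    induction q with
    | zero => exact ⟨fun l => l.elim0, fun l => l.elim0, fun l => l.elim0, fun l => l.elim0⟩
    | succ q ih =>
      obtain ⟨g, h1, h2, h3⟩ := ih
      have hfinE : (E ∪ ⋃ l, (g l) '' (F : Set B)).Finite :=
        hE.union (Set.finite_iUnion fun l => (Finset.finite_toSet F).image _)
      obtain ⟨g0, hg0, h0⟩ := hG (F : Set B) _ (Finset.finite_toSet F) hfinE
      refine ⟨Fin.snoc g g0, ?_, ?_, ?_⟩
      · intro l
        refine Fin.lastCases ?_ (fun l => ?_) l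
        · simpa using hg0
        · simpa using h1 l
      · intro l
        refine Fin.lastCases ?_ (fun l => ?_) l
        · intro x hx hxE
          simp only [Fin.snoc_last] at hxE
          exact h0 x hx (Or.inl hxE)
        · simpa using h2 l
      · intro l l' hll
        induction l using Fin.lastCases with
        | last =>
          induction l' using Fin.lastCases with
          | last => exact absurd rfl hll
          | cast l' =>
            intro x hx x' hx' he
            simp only [Fin.snoc_last, Fin.snoc_castSucc] at he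
            exact h0 x hx (Or.inr (Set.mem_iUnion.2 ⟨l', x', hx', he.symm⟩))
        | cast l =>
          induction l' using Fin.lastCases with
          | last =>
            intro x hx x' hx' he
            simp only [Fin.snoc_last, Fin.snoc_castSucc] at he
            exact h0 x' hx' (Or.inr (Set.mem_iUnion.2 ⟨l, x, hx, he⟩))
          | cast l' =>
            simp only [Fin.snoc_castSucc]
            exact h3 l l' (fun h => hll (by rw [h]))
  obtain ⟨g, h1, h2, h3⟩ := key
  refine ⟨fun y => g y.1 y.2, ?_, fun y => h2 y.1 y.2 y.2.2, fun l => ?_⟩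
  · rintro ⟨l, x⟩ ⟨l', x'⟩ h
    simp only at h
    by_cases hll : l = l'
    · subst hll
      rw [Subtype.ext ((g l).injective h)]
    · exact absurd h (h3 l l' hll x x.2 x' x'.2)
  · exact Same.symm ⟨g l, h1 l, fun _ => rfl⟩

/-- B. H. Neumann's lemma -/
theorem free_of_infinite {G : Subgroup (Equiv.Perm B)}
    (h : ∀ b : B, {x | ∃ g ∈ G, g b = x}.Infinite) : Free G := by
  intro F E hF hE
  by_contra hcon
  push Not at hcon
  have := hF.to_subtype
  have := hE.to_subtype
  let s : Set (F × E) := {y | ∃ g ∈ G, g y.1 = y.2}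
  have hs : s.Finite := Set.toFinite s
  let gg : F × E → G := fun y => if hy : ∃ g ∈ G, g y.1 = y.2 then ⟨hy.choose, hy.choose_spec.1⟩ else 1
  have hgg : ∀ y ∈ s, (gg y : Equiv.Perm B) y.1 = y.2 := by
    intro y hy
    have hy' : ∃ g ∈ G, g y.1 = y.2 := hy
    simp only [gg, dif_pos hy']
    exact hy'.choose_spec.2
  let H : F × E → Subgroup G := fun y => MulAction.stabilizer G (y.1 : B)
  have hcov : ⋃ y ∈ hs.toFinset, (gg y) • ((H y : Subgroup G) : Set G) = Set.univ := by
    rw [Set.eq_univ_iff_forall]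
    intro g
    obtain ⟨x, hx, hxE⟩ := hcon g g.2
    have hy : (⟨⟨x, hx⟩, ⟨_, hxE⟩⟩ : F × E) ∈ s := ⟨g, g.2, rfl⟩
    rw [Set.mem_iUnion₂]
    refine ⟨⟨⟨x, hx⟩, ⟨_, hxE⟩⟩, hs.mem_toFinset.2 hy, ?_⟩
    rw [Set.mem_smul_set_iff_inv_smul_mem]
    show (gg _)⁻¹ * g ∈ MulAction.stabilizer G (x : B)
    rw [MulAction.mem_stabilizer_iff]
    have h2 := hgg _ hy
    show ((gg _)⁻¹ * g) • x = x
    rw [mul_smul, inv_smul_eq_iff]
    exact h2.symm
  obtain ⟨y, -, hfi⟩ := Subgroup.exists_finiteIndex_of_leftCoset_cover hcov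
  have h3 : (MulAction.orbit G (y.1 : B)).Finite := by
    have h4 : Finite (G ⧸ MulAction.stabilizer G (y.1 : B)) := by
      have : (MulAction.stabilizer G (y.1 : B)).FiniteIndex := hfi
      infer_instance
    have := Finite.of_equiv _ (MulAction.orbitEquivQuotientStabilizer G (y.1 : B)).symm
    exact Set.toFinite _
  refine h y.1 (h3.subset ?_)
  rintro x ⟨g, hg, rfl⟩
  exact ⟨⟨g, hg⟩, rfl⟩

end Run7.h380.IN
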